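import Pool.Agent.H343S.Star

set_option autoImplicit false

namespace Pool.Agent.H343S

open Finset

/-- indicator -/
def ii {N : ℕ} (X : Finset (Sym2 (Fin N))) (u v : Fin N) : ℕ := if s(u, v) ∈ X then 1 else 0

lemma ii_le {N : ℕ} (X : Finset (Sym2 (Fin N))) (u v : Fin N) : ii X u v ≤ 1 := by
  unfold ii; split_ifs <;> omega

lemma ii_comm {N : ℕ} (X : Finset (Sym2 (Fin N))) (u v : Fin N) : ii X u v = ii X v u := by
  unfold ii; rw [Sym2.eq_swap]

lemma ii_zero {N : ℕ} {X : Finset (Sym2 (Fin N))} {u v : Fin N} (h : s(u, v) ∉ X) : ii X u v = 0 := by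
  unfold ii; rw [if_neg h]

lemma ii_self {N : ℕ} {X : Finset (Sym2 (Fin N))} (hX : X ⊆ Ed N) (u : Fin N) : ii X u u = 0 := by
  apply ii_zero
  intro h
  exact mem_Ed.1 (hX h) rfl

lemma ii_two {N : ℕ} {X : Finset (Sym2 (Fin N))} {u v u' v' : Fin N}
    (h : ¬ (s(u, v) ∈ X ∧ s(u', v') ∈ X)) : ii X u v + ii X u' v' ≤ 1 := by
  unfold ii
  by_cases h1 : s(u, v) ∈ X
  · have h2 : s(u', v') ∉ X := fun h2 => h ⟨h1, h2⟩
    rw [if_pos h1, if_neg h2]
  · rw [if_neg h1]
    split_ifs <;> omega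

lemma nb_sum {N : ℕ} (X : Finset (Sym2 (Fin N))) (K : Finset (Fin N)) (u : Fin N) :
    nb X K u = ∑ y ∈ K, ii X u y := by
  unfold nb ii
  rw [card_filter]

lemma nb_swap {N : ℕ} (X : Finset (Sym2 (Fin N))) (K T : Finset (Fin N)) :
    ∑ u ∈ K, nb X T u = ∑ t ∈ T, nb X K t := by
  simp only [nb_sum]
  rw [sum_comm]
  exact sum_congr rfl fun t _ => sum_congr rfl fun u _ => ii_comm X u t

lemma nb_compl {N : ℕ} (X : Finset (Sym2 (Fin N))) (K : Finset (Fin N)) (u : Fin N) :
    nb X univ u = nb X K u + nb X Kᶜ u := by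
  rw [← nb_union X disjoint_compl_right, union_compl]

/-- handshake lemma -/
lemma handshake {N : ℕ} {X : Finset (Sym2 (Fin N))} (hX : X ⊆ Ed N) :
    ∑ u, nb X univ u = 2 * X.card := by
  have h1 : ∀ u, nb X univ u = ∑ e ∈ X, if u ∈ e then 1 else 0 := by
    intro u
    rw [← deg_eq]
    unfold deg
    rw [card_filter]
  simp only [h1]
  rw [sum_comm]
  have h2 : ∀ e ∈ X, (∑ u : Fin N, if u ∈ e then 1 else 0) = 2 := by
    intro e he
    rw [← card_filter]
    induction e using Sym2.ind with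
    | _ x y =>
    have hxy : x ≠ y := mem_Ed.1 (hX he)
    have : univ.filter (fun u => u ∈ s(x, y)) = {x, y} := by
      ext u
      simp [Sym2.mem_iff]
    rw [this, card_pair hxy]
  rw [sum_congr rfl h2, sum_const, smul_eq_mul, mul_comm]

lemma count {N : ℕ} {X : Finset (Sym2 (Fin N))} (hX : X ⊆ Ed N) (K : Finset (Fin N)) :
    2 * X.card ≤ ∑ u ∈ K, nb X K u + 2 * ∑ t ∈ Kᶜ, nb X univ t := by
  rw [← handshake hX, ← sum_add_sum_compl K]
  have h1 : ∑ u ∈ K, nb X univ u = ∑ u ∈ K, nb X K u + ∑ u ∈ K, nb X Kᶜ u := by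
    rw [← sum_add_distrib]
    exact sum_congr rfl fun u _ => nb_compl X K u
  have h2 : ∑ u ∈ K, nb X Kᶜ u ≤ ∑ t ∈ Kᶜ, nb X univ t := by
    rw [nb_swap]
    apply sum_le_sum
    intro t _
    rw [nb_compl X K t]
    omega
  omega

lemma card_Ed (N : ℕ) : 2 * (Ed N).card = N * (N - 1) := by
  rw [← handshake (subset_refl (Ed N))]
  have : ∀ u : Fin N, nb (Ed N) univ u = N - 1 := by
    intro u
    have := deg_compl (subset_refl (Ed N)) u
    rw [sdiff_self] at this
    rw [← deg_eq]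
    have h0 : deg (∅ : Finset (Sym2 (Fin N))) u = 0 := by simp [deg]
    have h1 : deg (⊥ : Finset (Sym2 (Fin N))) u = 0 := h0
    omega
  simp [this]

lemma nb_pair {N : ℕ} {X : Finset (Sym2 (Fin N))} {Y : Finset (Fin N)} {a c : Fin N}
    (h : ∀ y ∈ Y, ¬ (s(a, y) ∈ X ∧ s(c, y) ∈ X)) : nb X Y a + nb X Y c ≤ Y.card := by
  rw [nb_sum, nb_sum, ← sum_add_distrib]
  calc ∑ y ∈ Y, (ii X a y + ii X c y) ≤ ∑ y ∈ Y, 1 := sum_le_sum fun y hy => ii_two (h y hy)
    _ = Y.card := by simp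

lemma nb3 {N : ℕ} (X : Finset (Sym2 (Fin N))) {a c v : Fin N} (h1 : a ≠ c) (h2 : a ≠ v) (h3 : c ≠ v)
    (u : Fin N) : nb X univ u = nb X ({a, c, v} : Finset (Fin N))ᶜ u + (ii X u a + ii X u c + ii X u v) := by
  rw [nb_compl X ({a, c, v} : Finset (Fin N))ᶜ u, compl_compl]
  congr 1
  rw [nb_sum, sum_insert, sum_insert, sum_singleton]
  · omega
  · simpa using h3
  · simp [h1, h2]

/-- the final position of the game with three additional vertices -/
lemma fin3 {n : ℕ} (hn : Even n) (hn11 : 11 ≤ n) {X : Finset (Sym2 (Fin (n + 3)))} (hX : X ⊆ Ed (n + 3))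
    (hc : (n + 3) * (n + 2) ≤ 4 * X.card) {a b c v : Fin (n + 3)} (hab : a ≠ b) (hac : a ≠ c)
    (hbc : b ≠ c) (hva : v ≠ a) (hvc : v ≠ c) (hacX : s(a, c) ∉ X)
    (hP : ∀ y ∈ ({a, b, c} : Finset (Fin (n + 3)))ᶜ, ¬ (s(a, y) ∈ X ∧ s(c, y) ∈ X))
    (hK : WK ({a, c, v} : Finset (Fin (n + 3)))ᶜ X)
    (hv : (v = b ∧ 2 * (nb X ({a, c, v} : Finset (Fin (n + 3)))ᶜ b + ii X b c) ≤ n + 2) ∨
      (v ≠ b ∧ ¬ (s(b, c) ∈ X ∧ s(b, v) ∈ X) ∧ 2 * nb X ({a, c, v} : Finset (Fin (n + 3)))ᶜ v ≤ n + 2)) :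
    Out (n + 3) X := by
  have hKc : (({a, c, v} : Finset (Fin (n + 3)))ᶜ).card = n := by
    rw [card_compl, Fintype.card_fin, card_insert_of_notMem, card_pair hvc.symm]
    · omega
    · simp [hac, hva.symm]
  have hKc' : (({a, b, c} : Finset (Fin (n + 3)))ᶜ).card = n := by
    rw [card_compl, Fintype.card_fin, card_insert_of_notMem, card_pair hbc]
    · omega
    · simp [hac, hab]
  have split := fun u => nb3 X hac hva.symm hvc.symm u
  set K := ({a, c, v} : Finset (Fin (n + 3)))ᶜ with hKdef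
  have hP' : ∀ y, y ≠ a → y ≠ b → y ≠ c → ¬ (s(a, y) ∈ X ∧ s(c, y) ∈ X) := by
    intro y h1 h2 h3
    apply hP
    simp [h1, h2, h3]
  -- the degrees of a and c
  have hdac : nb X univ a + nb X univ c ≤ n + 2 := by
    rw [nb3 X hab hac hbc a, nb3 X hab hac hbc c]
    have h1 := nb_pair hP
    rw [hKc'] at h1
    have h2 := ii_self hX a
    have h3 := ii_self hX c
    have h4 := ii_zero hacX
    have h5 := ii_comm X a c
    have h6 := ii_le X a b
    have h7 := ii_le X c b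
    omega
  -- the degree of v
  have hdv : 2 * nb X univ v ≤ n + 4 := by
    rw [split v]
    have h1 := ii_self hX v
    rcases hv with ⟨rfl, h2⟩ | ⟨h2, h3, h4⟩
    · have h6 := ii_le X v a
      omega
    · have h5 := ii_two (hP' v hva h2 hvc)
      rw [ii_comm X a v, ii_comm X c v] at h5
      omega
  -- vertices of K
  have hcK : ∀ u ∈ K, ii X u a + ii X u c + ii X u v ≤ 2 := by
    intro u hu
    rw [hKdef, mem_compl] at hu
    simp only [mem_insert, mem_singleton, not_or] at hu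
    by_cases hub : u = b
    · subst hub
      rcases hv with ⟨h, _⟩ | ⟨_, h3, _⟩
      · exact absurd h.symm hu.2.2
      · have := ii_two h3
        have := ii_le X u a
        omega
    · have h5 := ii_two (hP' u hu.1 hub hu.2.1)
      rw [ii_comm X a u, ii_comm X c u] at h5
      have := ii_le X u v
      omega
  obtain ⟨u0, hu0, hu⟩ := hK
  rw [hKc] at hu
  have hu00 := hu u0 hu0
  have hd0 := hcK u0 hu0
  apply out_of hX
  intro z
  by_cases hzK : z ∈ K
  · refine ⟨u0, ?_⟩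
    rw [split z, split u0]
    have := hu z hzK
    have := hcK z hzK
    omega
  · rw [hKdef, mem_compl, not_not] at hzK
    simp only [mem_insert, mem_singleton] at hzK
    rcases hzK with rfl | rfl | rfl
    · exact ⟨c, by omega⟩
    · exact ⟨a, by omega⟩
    · refine ⟨u0, ?_⟩
      by_cases hreg : 2 * nb X K u0 + 4 ≤ n
      · rw [split u0]
        omega
      · exfalso
        obtain ⟨k, hk⟩ := hn
        have hall : ∀ u ∈ K, 2 * nb X K u ≤ n - 2 := by
          intro u hu'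
          have := hu u hu'
          omega
        have h1 := count hX K
        have h2 : 2 * ∑ u ∈ K, nb X K u ≤ n * (n - 2) := by
          rw [mul_sum]
          calc ∑ u ∈ K, 2 * nb X K u ≤ ∑ u ∈ K, (n - 2) := sum_le_sum hall
            _ = n * (n - 2) := by rw [sum_const, hKc, smul_eq_mul]
        have h3 : ∑ t ∈ Kᶜ, nb X univ t = nb X univ a + nb X univ c + nb X univ z := by
          rw [hKdef, compl_compl, sum_insert, sum_insert, sum_singleton]
          · omega
          · simpa using hvc.symm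
          · simp [hac, hva.symm]
        rw [h3] at h1
        obtain ⟨m, rfl⟩ : ∃ m, n = m + 2 := ⟨n - 2, by omega⟩
        have e1 : m + 2 - 2 = m := by omega
        rw [e1] at h2
        nlinarith

end Pool.Agent.H343S
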