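import Mathlib

set_option autoImplicit false

/-! Two players claim the elements of a finite board in turn.  `win1 W F A`: the elements of `F` are
free, Player 1 has claimed `A`, Player 1 is to move, and Player 2 can force that the final set of
Player 1 satisfies `W`; `win2 W F A`: the same with Player 2 to move. -/

namespace Pool.Agent.H343S

open Finset

variable {E : Type*} [DecidableEq E]

/-- `win W k t F A`: `k` moves are left, Player 1 (`t = true`) or Player 2 (`t = false`) is to move -/
def win (W : Finset E → Prop) : ℕ → Bool → Finset E → Finset E → Prop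
  | 0, _, _, A => W A
  | k + 1, true, F, A => ∀ e ∈ F, win W k false (F.erase e) (insert e A)
  | k + 1, false, F, A => ∃ e ∈ F, win W k true (F.erase e) A

/-- Player 1 to move -/
def win1 (W : Finset E → Prop) (F A : Finset E) : Prop := win W F.card true F A

/-- Player 2 to move -/
def win2 (W : Finset E → Prop) (F A : Finset E) : Prop := win W F.card false F A

lemma win1_empty (W : Finset E → Prop) (A : Finset E) : win1 W ∅ A ↔ W A := by
  simp [win1, win]

lemma win2_empty (W : Finset E → Prop) (A : Finset E) : win2 W ∅ A ↔ W A := by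
  simp [win2, win]

lemma win1_iff (W : Finset E → Prop) {F : Finset E} (A : Finset E) (hF : F.Nonempty) :
    win1 W F A ↔ ∀ e ∈ F, win2 W (F.erase e) (insert e A) := by
  obtain ⟨k, hk⟩ : ∃ k, F.card = k + 1 := ⟨F.card - 1, by have := hF.card_pos; omega⟩
  unfold win1 win2
  rw [hk]
  constructor
  · intro h e he
    have := h e he
    rw [card_erase_of_mem he, hk]
    exact this
  · intro h e he
    have := h e he
    rw [card_erase_of_mem he, hk] at this
    exact this

lemma win2_iff (W : Finset E → Prop) {F : Finset E} (A : Finset E) (hF : F.Nonempty) :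
    win2 W F A ↔ ∃ e ∈ F, win1 W (F.erase e) A := by
  obtain ⟨k, hk⟩ : ∃ k, F.card = k + 1 := ⟨F.card - 1, by have := hF.card_pos; omega⟩
  unfold win1 win2
  rw [hk]
  constructor
  · rintro ⟨e, he, h⟩
    refine ⟨e, he, ?_⟩
    rw [card_erase_of_mem he, hk]
    exact h
  · rintro ⟨e, he, h⟩
    refine ⟨e, he, ?_⟩
    rw [card_erase_of_mem he, hk] at h
    exact h

/-- final sets of Player 1 -/
lemma mono_aux (W W' : Finset E → Prop) : ∀ k : ℕ, ∀ F A : Finset E, F.card = k → Disjoint A F →
    ((∀ X, A ⊆ X → X ⊆ A ∪ F → X.card = A.card + (F.card + 1) / 2 → W X → W' X) →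
      win1 W F A → win1 W' F A) ∧
    ((∀ X, A ⊆ X → X ⊆ A ∪ F → X.card = A.card + F.card / 2 → W X → W' X) →
      win2 W F A → win2 W' F A) := by
  intro k
  induction k with
  | zero =>
    intro F A hF _
    obtain rfl := card_eq_zero.1 hF
    simp only [win1_empty, win2_empty]
    exact ⟨fun h => h A (subset_refl _) (by simp) (by simp), fun h => h A (subset_refl _) (by simp) (by simp)⟩
  | succ k ih =>
    intro F A hF hd
    have hne : F.Nonempty := card_pos.1 (by omega)
    refine ⟨fun h => ?_, fun h => ?_⟩
    · rw [win1_iff W A hne, win1_iff W' A hne]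
      intro hw e he
      have hc : (F.erase e).card = k := by rw [card_erase_of_mem he]; omega
      have heA : e ∉ A := fun h' => disjoint_left.1 hd h' he
      have hd' : Disjoint (insert e A) (F.erase e) := by
        rw [disjoint_left]
        intro x hx hx'
        rcases mem_insert.1 hx with rfl | hx
        · exact (mem_erase.1 hx').1 rfl
        · exact disjoint_left.1 hd hx (mem_of_mem_erase hx')
      refine (ih _ _ hc hd').2 ?_ (hw e he)
      intro X h1 h2 h3 h4
      refine h X ((subset_insert _ _).trans h1) ?_ ?_ h4
      · refine h2.trans ?_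
        intro x hx
        simp only [mem_union, mem_insert, mem_erase] at hx ⊢
        rcases hx with (rfl | hx) | hx
        · exact Or.inr he
        · exact Or.inl hx
        · exact Or.inr hx.2
      · rw [h3, card_insert_of_notMem heA, hc, hF]
        omega
    · rw [win2_iff W A hne, win2_iff W' A hne]
      rintro ⟨e, he, hw⟩
      refine ⟨e, he, ?_⟩
      have hc : (F.erase e).card = k := by rw [card_erase_of_mem he]; omega
      have hd' : Disjoint A (F.erase e) := disjoint_of_subset_right (erase_subset _ _) hd
      refine (ih _ _ hc hd').1 ?_ hw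
      intro X h1 h2 h3 h4
      refine h X h1 (h2.trans (union_subset_union_right (erase_subset _ _))) ?_ h4
      rw [h3, hc, hF]

lemma win1_mono {W W' : Finset E → Prop} {F A : Finset E} (hd : Disjoint A F)
    (h : ∀ X, A ⊆ X → X ⊆ A ∪ F → X.card = A.card + (F.card + 1) / 2 → W X → W' X)
    (hw : win1 W F A) : win1 W' F A := (mono_aux W W' _ F A rfl hd).1 h hw

lemma mono_simple {W W' : Finset E → Prop} (h : ∀ X, W X → W' X) : ∀ (k : ℕ) (F A : Finset E),
    F.card = k → (win1 W F A → win1 W' F A) ∧ (win2 W F A → win2 W' F A) := by
  intro k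
  induction k with
  | zero =>
    intro F A hF
    obtain rfl := card_eq_zero.1 hF
    simp only [win1_empty, win2_empty]
    exact ⟨h A, h A⟩
  | succ k ih =>
    intro F A hF
    have hne : F.Nonempty := card_pos.1 (by omega)
    refine ⟨?_, ?_⟩
    · rw [win1_iff W A hne, win1_iff W' A hne]
      intro hw e he
      exact (ih _ _ (by rw [card_erase_of_mem he]; omega)).2 (hw e he)
    · rw [win2_iff W A hne, win2_iff W' A hne]
      rintro ⟨e, he, hw⟩
      exact ⟨e, he, (ih _ _ (by rw [card_erase_of_mem he]; omega)).1 hw⟩

lemma win1_imp {W W' : Finset E → Prop} (h : ∀ X, W X → W' X) {F A : Finset E}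
    (hw : win1 W F A) : win1 W' F A := (mono_simple h _ F A rfl).1 hw

lemma win2_imp {W W' : Finset E → Prop} (h : ∀ X, W X → W' X) {F A : Finset E}
    (hw : win2 W F A) : win2 W' F A := (mono_simple h _ F A rfl).2 hw

/-- `W` is inherited by smaller sets -/
def Anti (W : Finset E → Prop) : Prop := ∀ X Y : Finset E, X ⊆ Y → W Y → W X

lemma extra_aux {W : Finset E → Prop} (hW : Anti W) : ∀ (k : ℕ) (F A : Finset E), F.card = k →
    (win1 W F A → win2 W F A) ∧ (∀ e ∈ F, win1 W F A → win1 W (F.erase e) A) := by
  intro k
  induction k using Nat.strong_induction_on with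
  | _ k ih =>
    intro F A hF
    have key : ∀ e ∈ F, win1 W F A → win1 W (F.erase e) A := by
      intro e he hw
      have hne : F.Nonempty := ⟨e, he⟩
      rw [win1_iff W A hne] at hw
      rcases (F.erase e).eq_empty_or_nonempty with h0 | h0
      · rw [h0, win1_empty]
        have := hw e he
        rw [h0, win2_empty] at this
        exact hW _ _ (subset_insert _ _) this
      · rw [win1_iff W A h0]
        intro g hg
        have hgF := mem_of_mem_erase hg
        have hge := (mem_erase.1 hg).1
        have h1 := hw g hgF
        have he' : e ∈ F.erase g := mem_erase.2 ⟨fun h => hge h.symm, he⟩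
        have hcF : F.card ≥ 1 := hne.card_pos
        have hc1 : (F.erase g).card = k - 1 := by rw [card_erase_of_mem hgF]; omega
        rw [win2_iff W _ ⟨e, he'⟩] at h1
        obtain ⟨f, hf, h2⟩ := h1
        have hc2 : ((F.erase g).erase f).card = k - 1 - 1 := by rw [card_erase_of_mem hf]; omega
        have hk1 : 1 ≤ k := by omega
        by_cases hfe : f = e
        · subst hfe
          rw [erase_right_comm] at h2
          have hc3 : ((F.erase f).erase g).card = k - 1 - 1 := by rw [erase_right_comm]; exact hc2
          exact (ih _ (by omega) _ _ hc3).1 h2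
        · have he2 : e ∈ (F.erase g).erase f := mem_erase.2 ⟨fun h => hfe h.symm, he'⟩
          have h3 := (ih _ (by omega) _ _ hc2).2 e he2 h2
          have hf2 : f ∈ (F.erase e).erase g := by
            rw [mem_erase, mem_erase]
            exact ⟨(mem_erase.1 hf).1, hfe, mem_of_mem_erase hf⟩
          rw [win2_iff W _ ⟨f, hf2⟩]
          refine ⟨f, hf2, ?_⟩
          have : ((F.erase e).erase g).erase f = ((F.erase g).erase f).erase e := by
            ext x
            simp only [mem_erase]
            tauto
          rw [this]
          exact h3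
    refine ⟨fun hw => ?_, key⟩
    rcases F.eq_empty_or_nonempty with h0 | h0
    · subst h0
      rw [win1_empty] at hw
      rw [win2_empty]
      exact hw
    · rw [win2_iff W _ h0]
      obtain ⟨e, he⟩ := h0
      exact ⟨e, he, key e he hw⟩

lemma win1_win2 {W : Finset E → Prop} (hW : Anti W) {F A : Finset E} (h : win1 W F A) :
    win2 W F A := (extra_aux hW _ F A rfl).1 h

lemma win1_erase {W : Finset E → Prop} (hW : Anti W) {F A : Finset E} (h : win1 W F A) {e : E}
    (he : e ∈ F) : win1 W (F.erase e) A := (extra_aux hW _ F A rfl).2 e he h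

lemma win1_subset {W : Finset E → Prop} (hW : Anti W) {F F' A : Finset E} (hF : F' ⊆ F)
    (h : win1 W F A) : win1 W F' A := by
  have : ∀ (D F : Finset E), win1 W F A → D ⊆ F → win1 W (F \ D) A := by
    intro D
    induction D using Finset.induction_on with
    | empty => intro F h _; simpa using h
    | insert e D he ih =>
      intro F h hD
      have h1 := ih F h ((subset_insert _ _).trans hD)
      have h2 : e ∈ F \ D := mem_sdiff.2 ⟨hD (mem_insert_self _ _), he⟩
      have h3 := win1_erase hW h1 h2
      have : F \ insert e D = (F \ D).erase e := by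
        ext x
        simp only [mem_sdiff, mem_insert, mem_erase]
        tauto
      rw [this]
      exact h3
  have h1 := this (F \ F') F h sdiff_subset
  rwa [Finset.sdiff_sdiff_eq_self hF] at h1

/-- adding an element to the set of Player 1 which `W` ignores -/
lemma ins_aux {W : Finset E → Prop} (g : E) (hg : ∀ X, W X → W (insert g X)) :
    ∀ (k : ℕ) (F A : Finset E), F.card = k →
    (win1 W F A → win1 W F (insert g A)) ∧ (win2 W F A → win2 W F (insert g A)) := by
  intro k
  induction k with
  | zero =>
    intro F A hF
    obtain rfl := card_eq_zero.1 hF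
    simp only [win1_empty, win2_empty]
    exact ⟨hg A, hg A⟩
  | succ k ih =>
    intro F A hF
    have hne : F.Nonempty := card_pos.1 (by omega)
    refine ⟨?_, ?_⟩
    · rw [win1_iff W A hne, win1_iff W _ hne]
      intro hw e he
      rw [Finset.insert_comm]
      exact (ih _ _ (by rw [card_erase_of_mem he]; omega)).2 (hw e he)
    · rw [win2_iff W A hne, win2_iff W _ hne]
      rintro ⟨e, he, hw⟩
      exact ⟨e, he, (ih _ _ (by rw [card_erase_of_mem he]; omega)).1 hw⟩

lemma win1_ins {W : Finset E → Prop} {g : E} (hg : ∀ X, W X → W (insert g X)) {F A : Finset E}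
    (h : win1 W F A) : win1 W F (insert g A) := (ins_aux g hg _ F A rfl).1 h

/-- Two disjoint boards -/
lemma sum_aux : ∀ (k : ℕ) (W1 W2 : Finset E → Prop) (F1 F2 A : Finset E), Anti W1 → Anti W2 →
    F1.card + F2.card = k → Disjoint F1 F2 →
    (∀ e ∈ F2, ∀ X, W1 X → W1 (insert e X)) → (∀ e ∈ F1, ∀ X, W2 X → W2 (insert e X)) →
    win1 W1 F1 A → win1 W2 F2 A → win1 (fun X => W1 X ∧ W2 X) (F1 ∪ F2) A := by
  intro k
  induction k using Nat.strong_induction_on with
  | _ k ih =>
    have main : ∀ (W1 W2 : Finset E → Prop) (F1 F2 A : Finset E), Anti W1 → Anti W2 →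
        F1.card + F2.card = k → Disjoint F1 F2 →
        (∀ e ∈ F2, ∀ X, W1 X → W1 (insert e X)) → (∀ e ∈ F1, ∀ X, W2 X → W2 (insert e X)) →
        win1 W1 F1 A → win1 W2 F2 A → ∀ e ∈ F1,
        win2 (fun X => W1 X ∧ W2 X) ((F1 ∪ F2).erase e) (insert e A) := by
      intro W1 W2 F1 F2 A a1 a2 hk hd i1 i2 h1 h2 e he
      have hWW : Anti (fun X => W1 X ∧ W2 X) := fun X Y hXY h => ⟨a1 X Y hXY h.1, a2 X Y hXY h.2⟩
      have heF2 : e ∉ F2 := fun h => disjoint_left.1 hd he h
      have hE : (F1 ∪ F2).erase e = F1.erase e ∪ F2 := by
        ext x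
        simp only [mem_erase, mem_union]
        constructor
        · rintro ⟨h, h' | h'⟩
          · exact Or.inl ⟨h, h'⟩
          · exact Or.inr h'
        · rintro (⟨h, h'⟩ | h')
          · exact ⟨h, Or.inl h'⟩
          · exact ⟨fun h => heF2 (h ▸ h'), Or.inr h'⟩
      rw [hE]
      have h2' : win1 W2 F2 (insert e A) := win1_ins (i2 e he) h2
      have h1' := (win1_iff W1 A ⟨e, he⟩).1 h1 e he
      have hc : (F1.erase e).card = F1.card - 1 := card_erase_of_mem he
      have hc0 : 1 ≤ F1.card := card_pos.2 ⟨e, he⟩
      rcases (F1.erase e).eq_empty_or_nonempty with h0 | h0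
      · rw [h0, win2_empty] at h1'
        have h3 : win1 W1 ∅ (insert e A) := (win1_empty _ _).2 h1'
        have := ih (0 + F2.card) (by omega) W1 W2 ∅ F2 (insert e A) a1 a2 (by simp)
          (disjoint_empty_left _) i1 (by simp) h3 h2'
        rw [h0]
        exact win1_win2 hWW this
      · rw [win2_iff _ _ h0] at h1'
        obtain ⟨f, hf, h3⟩ := h1'
        have hc2 : ((F1.erase e).erase f).card = F1.card - 1 - 1 := by
          rw [card_erase_of_mem hf, hc]
        have hsub : (F1.erase e).erase f ⊆ F1 := (erase_subset _ _).trans (erase_subset _ _)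
        have := ih (((F1.erase e).erase f).card + F2.card) (by omega) W1 W2 ((F1.erase e).erase f) F2
          (insert e A) a1 a2 rfl (disjoint_of_subset_left hsub hd) i1
          (fun x hx => i2 x (hsub hx)) h3 h2'
        have hfu : f ∈ F1.erase e ∪ F2 := mem_union_left _ hf
        rw [win2_iff _ _ ⟨f, hfu⟩]
        refine ⟨f, hfu, ?_⟩
        have hfF2 : f ∉ F2 := fun h => disjoint_left.1 hd (mem_of_mem_erase hf) h
        have hE2 : (F1.erase e ∪ F2).erase f = (F1.erase e).erase f ∪ F2 := by
          rw [erase_union_distrib, erase_eq_of_notMem hfF2]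
        rw [hE2]
        exact this
    intro W1 W2 F1 F2 A a1 a2 hk hd i1 i2 h1 h2
    rcases (F1 ∪ F2).eq_empty_or_nonempty with h0 | h0
    · rw [h0, win1_empty]
      obtain ⟨h01, h02⟩ := union_eq_empty.1 h0
      rw [h01, win1_empty] at h1
      rw [h02, win1_empty] at h2
      exact ⟨h1, h2⟩
    · rw [win1_iff _ _ h0]
      intro e he
      rcases mem_union.1 he with he | he
      · exact main W1 W2 F1 F2 A a1 a2 hk hd i1 i2 h1 h2 e he
      · have := main W2 W1 F2 F1 A a2 a1 (by omega) hd.symm i2 i1 h2 h1 e he
        rw [union_comm]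
        exact win2_imp (fun X h => ⟨h.2, h.1⟩) this

lemma win1_sum {W1 W2 : Finset E → Prop} {F1 F2 A : Finset E} (a1 : Anti W1) (a2 : Anti W2)
    (hd : Disjoint F1 F2) (i1 : ∀ e ∈ F2, ∀ X, W1 X → W1 (insert e X))
    (i2 : ∀ e ∈ F1, ∀ X, W2 X → W2 (insert e X)) (h1 : win1 W1 F1 A) (h2 : win1 W2 F2 A) :
    win1 (fun X => W1 X ∧ W2 X) (F1 ∪ F2) A :=
  sum_aux _ W1 W2 F1 F2 A a1 a2 rfl hd i1 i2 h1 h2

/-- Player 1 gets at most half (rounded up) of a board -/
lemma win1_half (S A : Finset E) (hd : Disjoint A S) :
    win1 (fun X => 2 * (X ∩ S).card ≤ S.card + 1) S A := by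
  have h0 : win1 (fun _ : Finset E => True) S A := by
    have : ∀ (k : ℕ) (F A : Finset E), F.card = k →
        win1 (fun _ : Finset E => True) F A ∧ win2 (fun _ : Finset E => True) F A := by
      intro k
      induction k with
      | zero =>
        intro F A hF
        obtain rfl := card_eq_zero.1 hF
        simp [win1_empty, win2_empty]
      | succ k ih =>
        intro F A hF
        have hne : F.Nonempty := card_pos.1 (by omega)
        rw [win1_iff _ A hne, win2_iff _ A hne]
        refine ⟨fun e he => (ih _ _ (by rw [card_erase_of_mem he]; omega)).2, ?_⟩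
        obtain ⟨e, he⟩ := hne
        exact ⟨e, he, (ih _ _ (by rw [card_erase_of_mem he]; omega)).1⟩
    exact (this _ S A rfl).1
  refine win1_mono hd ?_ h0
  intro X h1 h2 h3 _
  have h4 : (X ∩ S).card + A.card ≤ X.card := by
    rw [← card_union_of_disjoint]
    · exact card_le_card (union_subset inter_subset_left h1)
    · exact disjoint_of_subset_left inter_subset_right hd.symm
  show 2 * (X ∩ S).card ≤ S.card + 1
  omega

/-- The roles exchanged: if Player 2 (to move) cannot force `W`, then the opponent can prevent it. -/
lemma dual {W : Finset E → Prop} {B : Finset E} : ∀ (k : ℕ) (F A C : Finset E), F.card = k →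
    A ∪ F ∪ C = B → Disjoint A F → Disjoint A C → Disjoint F C → ¬ win2 W F A →
    win1 (fun X => ¬ W (B \ X)) F C := by
  have hBC : ∀ A C : Finset E, A ∪ C = B → Disjoint A C → B \ C = A := by
    intro A C h hd
    rw [← h, union_sdiff_right, sdiff_eq_self_of_disjoint hd]
  intro k
  induction k using Nat.strong_induction_on with
  | _ k ih =>
    intro F A C hF hB hAF hAC hFC hw
    rcases F.eq_empty_or_nonempty with h0 | h0
    · subst h0
      rw [win2_empty] at hw
      rw [win1_empty, hBC A C (by simpa using hB) hAC]
      exact hw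
    · rw [win1_iff _ _ h0]
      intro e he
      have heA : e ∉ A := fun h => disjoint_left.1 hAF h he
      have heC : e ∉ C := fun h => disjoint_left.1 hFC he h
      rw [win2_iff _ _ h0] at hw
      have h1 : ¬ win1 W (F.erase e) A := fun h => hw ⟨e, he, h⟩
      have hAC' : Disjoint A (insert e C) := by
        rw [disjoint_insert_right]
        exact ⟨heA, hAC⟩
      rcases (F.erase e).eq_empty_or_nonempty with h2 | h2
      · rw [h2, win1_empty] at h1
        rw [h2, win2_empty, hBC A (insert e C) ?_ hAC']
        · exact h1
        · rw [← hB]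
          ext x
          have := Finset.ext_iff.1 h2 x
          simp only [mem_erase, notMem_empty, iff_false, not_and, mem_union, mem_insert] at this ⊢
          constructor
          · rintro (h | rfl | h)
            · exact Or.inl (Or.inl h)
            · exact Or.inl (Or.inr he)
            · exact Or.inr h
          · rintro ((h | h) | h)
            · exact Or.inl h
            · by_cases hx : x = e
              · exact Or.inr (Or.inl hx)
              · exact absurd h (this hx)
            · exact Or.inr (Or.inr h)
      · rw [win1_iff _ _ h2] at h1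
        push Not at h1
        obtain ⟨f, hf, h3⟩ := h1
        have hfF := mem_of_mem_erase hf
        have hfe := (mem_erase.1 hf).1
        have hfC : f ∉ C := fun h => disjoint_left.1 hFC hfF h
        rw [win2_iff _ _ h2]
        refine ⟨f, hf, ?_⟩
        have hc : 1 ≤ F.card := card_pos.2 ⟨e, he⟩
        refine ih ((F.erase e).erase f).card ?_ _ (insert f A) (insert e C) rfl ?_ ?_ ?_ ?_ h3
        · rw [card_erase_of_mem hf, card_erase_of_mem he]; omega
        · rw [← hB]
          ext x
          simp only [mem_erase, mem_union, mem_insert]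
          constructor
          · rintro (((rfl | h) | h) | (rfl | h))
            · exact Or.inl (Or.inr hfF)
            · exact Or.inl (Or.inl h)
            · exact Or.inl (Or.inr h.2.2)
            · exact Or.inl (Or.inr he)
            · exact Or.inr h
          · rintro ((h | h) | h)
            · exact Or.inl (Or.inl (Or.inr h))
            · by_cases hxe : x = e
              · exact Or.inr (Or.inl hxe)
              · by_cases hxf : x = f
                · exact Or.inl (Or.inl (Or.inl hxf))
                · exact Or.inl (Or.inr ⟨hxf, hxe, h⟩)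
            · exact Or.inr (Or.inr h)
        · rw [disjoint_left]
          intro x hx hx'
          rcases mem_insert.1 hx with rfl | hx
          · exact (mem_erase.1 hx').1 rfl
          · exact disjoint_left.1 hAF hx (mem_of_mem_erase (mem_of_mem_erase hx'))
        · rw [disjoint_left]
          intro x hx hx'
          rcases mem_insert.1 hx with rfl | hx
          · rcases mem_insert.1 hx' with h | h
            · exact hfe h
            · exact hfC h
          · exact disjoint_left.1 hAC' hx hx'
        · rw [disjoint_left]
          intro x hx hx'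
          have hx1 := mem_of_mem_erase hx
          rcases mem_insert.1 hx' with rfl | hx'
          · exact (mem_erase.1 hx1).1 rfl
          · exact disjoint_left.1 hFC (mem_of_mem_erase hx1) hx'

/-- Transport along an injective map -/
lemma transport {E' : Type*} [DecidableEq E'] (j : E ↪ E') {W : Finset E → Prop}
    {W' : Finset E' → Prop} (C : Finset E') (hW : ∀ X, W X → W' (X.map j ∪ C)) :
    ∀ (k : ℕ) (F A : Finset E), F.card = k →
    (win1 W F A → win1 W' (F.map j) (A.map j ∪ C)) ∧
    (win2 W F A → win2 W' (F.map j) (A.map j ∪ C)) := by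
  intro k
  induction k with
  | zero =>
    intro F A hF
    obtain rfl := card_eq_zero.1 hF
    simp only [map_empty, win1_empty, win2_empty]
    exact ⟨hW A, hW A⟩
  | succ k ih =>
    intro F A hF
    have hne : F.Nonempty := card_pos.1 (by omega)
    have hne' : (F.map j).Nonempty := hne.map
    refine ⟨?_, ?_⟩
    · rw [win1_iff W A hne, win1_iff W' _ hne']
      intro hw e' he'
      obtain ⟨e, he, rfl⟩ := mem_map.1 he'
      have := (ih _ _ (by rw [card_erase_of_mem he]; omega)).2 (hw e he)
      rw [map_erase, map_insert, insert_union] at this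
      exact this
    · rw [win2_iff W A hne, win2_iff W' _ hne']
      rintro ⟨e, he, hw⟩
      refine ⟨j e, mem_map_of_mem _ he, ?_⟩
      have := (ih _ _ (by rw [card_erase_of_mem he]; omega)).1 hw
      rw [map_erase] at this
      exact this

lemma win1_transport {E' : Type*} [DecidableEq E'] (j : E ↪ E') {W : Finset E → Prop}
    {W' : Finset E' → Prop} (C : Finset E') (hW : ∀ X, W X → W' (X.map j ∪ C)) {F A : Finset E}
    (h : win1 W F A) : win1 W' (F.map j) (A.map j ∪ C) := (transport j C hW _ F A rfl).1 h

end Pool.Agent.H343S
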