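import Pool.Agent.H343S.Three

set_option autoImplicit false

namespace Pool.Agent.H343S

open Finset

/-- condition on `v` -/
def VC {N : ℕ} (n : ℕ) (a b c v : Fin N) (X : Finset (Sym2 (Fin N))) : Prop :=
  (v = b ∧ 2 * (nb X ({a, c, v} : Finset (Fin N))ᶜ b + ii X b c) ≤ n + 2) ∨
  (v ≠ b ∧ ¬ (s(b, c) ∈ X ∧ s(b, v) ∈ X) ∧ 2 * nb X ({a, c, v} : Finset (Fin N))ᶜ v ≤ n + 2)

/-- goal of the game outside the pairs -/
def Rest {N : ℕ} (n : ℕ) (a b c : Fin N) (X : Finset (Sym2 (Fin N))) : Prop :=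
  ∃ v, v ≠ a ∧ v ≠ c ∧ WK ({a, c, v} : Finset (Fin N))ᶜ X ∧ VC n a b c v X

lemma ii_mono {N : ℕ} {X Y : Finset (Sym2 (Fin N))} (h : X ⊆ Y) (u v : Fin N) : ii X u v ≤ ii Y u v := by
  unfold ii
  by_cases h1 : s(u, v) ∈ X
  · rw [if_pos h1, if_pos (h h1)]
  · rw [if_neg h1]; omega

lemma anti_Rest {N : ℕ} (n : ℕ) (a b c : Fin N) : Anti (Rest n a b c) := by
  rintro X Y hXY ⟨v, h1, h2, h3, h4⟩
  refine ⟨v, h1, h2, anti_WK _ X Y hXY h3, ?_⟩
  rcases h4 with ⟨h5, h6⟩ | ⟨h5, h6, h7⟩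
  · left
    have := nb_mono hXY ({a, c, v} : Finset (Fin N))ᶜ b
    have := ii_mono hXY b c
    exact ⟨h5, by omega⟩
  · right
    have := nb_mono hXY ({a, c, v} : Finset (Fin N))ᶜ v
    exact ⟨h5, fun h => h6 ⟨hXY h.1, hXY h.2⟩, by omega⟩

lemma nb_insert_set {N : ℕ} (X : Finset (Sym2 (Fin N))) {K : Finset (Fin N)} {c : Fin N} (hc : c ∉ K)
    (u : Fin N) : nb X (insert c K) u = ii X u c + nb X K u := by
  rw [nb_sum, nb_sum, sum_insert hc]

lemma nb_erase {N : ℕ} (X : Finset (Sym2 (Fin N))) {K : Finset (Fin N)} {z : Fin N} (hz : z ∈ K)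
    (u : Fin N) : nb X K u = ii X u z + nb X (K.erase z) u := by
  rw [nb_sum, nb_sum, add_sum_erase K _ hz]

/-- `v = b` -/
lemma rest_b {n N : ℕ} (hN : N = n + 3) (hn : ¬ P2wins n) (he : Even n) (hn2 : 2 ≤ n) {a b c z : Fin N}
    (hab : a ≠ b) (hac : a ≠ c) (hbc : b ≠ c)
    (hz : z ∈ insert c (({a, c, b} : Finset (Fin N))ᶜ)) :
    win2 (Rest n a b c) ((insert s(b, c) (ek ({a, c} : Finset (Fin N))ᶜ)).erase s(b, z))
      (insert s(b, z) {s(a, b)}) := by
  set K := ({a, c, b} : Finset (Fin N))ᶜ with hK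
  have hKc : K.card = n := by
    rw [hK, card_compl, Fintype.card_fin, card_insert_of_notMem, card_pair hbc.symm]
    · omega
    · simp [hac, hab]
  have hmK : ∀ y, y ∈ K ↔ y ≠ a ∧ y ≠ c ∧ y ≠ b := by
    intro y
    rw [hK]
    simp
  have haK : a ∉ K := fun h => ((hmK a).1 h).1 rfl
  have hcK : c ∉ K := fun h => ((hmK c).1 h).2.1 rfl
  have hbK : b ∉ K := fun h => ((hmK b).1 h).2.2 rfl
  have hzb : z ≠ b := by
    rcases mem_insert.1 hz with rfl | h
    · exact hbc.symm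
    · exact ((hmK z).1 h).2.2
  have hza : z ≠ a := by
    rcases mem_insert.1 hz with rfl | h
    · exact hac.symm
    · exact ((hmK z).1 h).1
  obtain ⟨x, hx, y, hy, hxy⟩ := one_lt_card.1 (show 1 < K.card by omega)
  set Y := (insert c K).erase z with hY
  have hYc : Y.card = n := by
    rw [hY, card_erase_of_mem hz, card_insert_of_notMem hcK, hKc]
    omega
  have hbY : b ∉ Y := by
    intro h
    rcases mem_insert.1 (mem_of_mem_erase h) with h | h
    · exact hbc h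
    · exact hbK h
  have haY : a ∉ Y := by
    intro h
    rcases mem_insert.1 (mem_of_mem_erase h) with h | h
    · exact hac h
    · exact haK h
  have hA : ∀ e ∈ insert s(b, z) ({s(a, b)} : Finset (Sym2 (Fin N))), e ∉ ek K ∧ ¬ e.IsDiag := by
    intro e he
    rw [mem_insert, mem_singleton] at he
    rcases he with rfl | rfl
    · refine ⟨fun h => hbK (mem_ek.1 h).2.1, ?_⟩
      rw [Sym2.mk_isDiag_iff]
      exact fun h => hzb h.symm
    · refine ⟨fun h => haK (mem_ek.1 h).2.1, ?_⟩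
      rw [Sym2.mk_isDiag_iff]
      exact hab
  have hAS : Disjoint (insert s(b, z) ({s(a, b)} : Finset (Sym2 (Fin N)))) (star b Y) := by
    rw [disjoint_left]
    intro e he h
    obtain ⟨w, hw, hwe⟩ := mem_star.1 h
    rw [mem_insert, mem_singleton] at he
    rcases he with rfl | rfl
    · rw [Sym2.congr_right] at hwe
      rw [hwe] at hw
      exact notMem_erase _ _ hw
    · rcases Sym2.eq_iff.1 hwe with ⟨h', _⟩ | ⟨_, h'⟩
      · exact hab h'.symm
      · exact haY (h' ▸ hw)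
  have main := kstar hn hKc hx hy hxy hbK Y hbY _ hA hAS
  have main2 : win1 (Rest n a b c) ((ek K).erase s(x, y) ∪ star b Y) (insert s(b, z) {s(a, b)}) := by
    refine win1_imp ?_ main
    rintro X ⟨h1, h2⟩
    refine ⟨b, hab.symm, hbc, h1, Or.inl ⟨rfl, ?_⟩⟩
    rw [← hK]
    have h3 := nb_insert_set X hcK b
    have h4 := nb_erase X hz b
    rw [← hY] at h4
    have h5 := ii_le X b z
    rw [hYc] at h2
    obtain ⟨k, hk⟩ := he
    omega
  have hσ : s(x, y) ∈ (insert s(b, c) (ek ({a, c} : Finset (Fin N))ᶜ)).erase s(b, z) := by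
    rw [mem_erase]
    refine ⟨?_, mem_insert_of_mem (mem_ek.2 ⟨hxy, ?_, ?_⟩)⟩
    · intro h
      rcases Sym2.eq_iff.1 h with ⟨h', _⟩ | ⟨_, h'⟩
      · exact hbK (h' ▸ hx)
      · exact hbK (h' ▸ hy)
    · rw [hmK] at hx
      simp [hx.1, hx.2.1]
    · rw [hmK] at hy
      simp [hy.1, hy.2.1]
  rw [win2_iff _ _ ⟨_, hσ⟩]
  refine ⟨_, hσ, win1_subset (anti_Rest n a b c) ?_ main2⟩
  intro f hf
  induction f using Sym2.ind with
  | _ p q =>
  rw [mem_erase, mem_erase, mem_insert] at hf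
  obtain ⟨hf1, hf2, hf3⟩ := hf
  have haux : ∀ q, q ≠ a → q ≠ b → s(b, q) ≠ s(b, z) → s(b, q) ∈ star b Y := by
    intro q h1 h2 h3
    refine mem_star.2 ⟨q, ?_, rfl⟩
    rw [hY, mem_erase, mem_insert, hmK]
    refine ⟨fun h => h3 (by rw [h]), ?_⟩
    by_cases hqc : q = c
    · exact Or.inl hqc
    · exact Or.inr ⟨h1, hqc, h2⟩
  rw [mem_union]
  rcases hf3 with hf3 | hf3
  · right
    rw [hf3] at hf2 ⊢
    exact haux c hac.symm hbc.symm hf2
  · obtain ⟨h1, h2, h3⟩ := mem_ek.1 hf3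
    simp only [mem_compl, mem_insert, mem_singleton, not_or] at h2 h3
    by_cases hp : p = b
    · right
      rw [hp] at hf2 ⊢ h1
      exact haux q h3.1 (fun h => h1 h.symm) hf2
    · by_cases hq : q = b
      · right
        have hsw : s(p, q) = s(b, p) := by rw [hq]; exact Sym2.eq_swap
        rw [hsw] at hf2 ⊢
        exact haux p h2.1 hp hf2
      · left
        rw [mem_erase]
        exact ⟨hf1, mem_ek.2 ⟨h1, (hmK p).2 ⟨h2.1, h2.2, hp⟩, (hmK q).2 ⟨h3.1, h3.2, hq⟩⟩⟩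

/-- `v = p` -/
lemma rest_p {n N : ℕ} (hN : N = n + 3) (hn : ¬ P2wins n) (he : Even n) (hn2 : 2 ≤ n) {a b c p q : Fin N}
    (hab : a ≠ b) (hac : a ≠ c) (hbc : b ≠ c) (hpa : p ≠ a) (hpc : p ≠ c) (hpb : p ≠ b)
    (hqa : q ≠ a) (hqc : q ≠ c) (hqb : q ≠ b) (hpq : p ≠ q) :
    win2 (Rest n a b c) ((insert s(b, c) (ek ({a, c} : Finset (Fin N))ᶜ)).erase s(p, q))
      (insert s(p, q) {s(a, b)}) := by
  set K := ({a, c, p} : Finset (Fin N))ᶜ with hK
  have hKc : K.card = n := by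
    rw [hK, card_compl, Fintype.card_fin, card_insert_of_notMem, card_pair hpc.symm]
    · omega
    · simp [hac, hpa.symm]
  have hmK : ∀ y, y ∈ K ↔ y ≠ a ∧ y ≠ c ∧ y ≠ p := by
    intro y
    rw [hK]
    simp
  have haK : a ∉ K := fun h => ((hmK a).1 h).1 rfl
  have hcK : c ∉ K := fun h => ((hmK c).1 h).2.1 rfl
  have hpK : p ∉ K := fun h => ((hmK p).1 h).2.2 rfl
  have hbK : b ∈ K := (hmK b).2 ⟨hab.symm, hbc, hpb.symm⟩
  have hqK : q ∈ K := (hmK q).2 ⟨hqa, hqc, hpq.symm⟩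
  obtain ⟨x, hx, y, hy, hxy⟩ := one_lt_card.1 (show 1 < K.card by omega)
  set Y := (K.erase q).erase b with hY
  have hbKq : b ∈ K.erase q := mem_erase.2 ⟨hqb.symm, hbK⟩
  have hYc : Y.card = n - 2 := by
    rw [hY, card_erase_of_mem hbKq, card_erase_of_mem hqK, hKc]
    omega
  have hYK : Y ⊆ K := (erase_subset _ _).trans (erase_subset _ _)
  have hA : ∀ e ∈ insert s(p, q) ({s(a, b)} : Finset (Sym2 (Fin N))), e ∉ ek K ∧ ¬ e.IsDiag := by
    intro e he
    rw [mem_insert, mem_singleton] at he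
    rcases he with rfl | rfl
    · refine ⟨fun h => hpK (mem_ek.1 h).2.1, ?_⟩
      rw [Sym2.mk_isDiag_iff]
      exact hpq
    · refine ⟨fun h => haK (mem_ek.1 h).2.1, ?_⟩
      rw [Sym2.mk_isDiag_iff]
      exact hab
  have hAS : Disjoint (insert s(p, q) ({s(a, b)} : Finset (Sym2 (Fin N)))) (star p Y) := by
    rw [disjoint_left]
    intro e he h
    obtain ⟨w, hw, hwe⟩ := mem_star.1 h
    rw [mem_insert, mem_singleton] at he
    rcases he with rfl | rfl
    · rw [Sym2.congr_right] at hwe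
      rw [hwe] at hw
      exact (mem_erase.1 (mem_of_mem_erase hw)).1 rfl
    · rcases Sym2.eq_iff.1 hwe with ⟨h', _⟩ | ⟨h', _⟩
      · exact hpa h'
      · exact hpb h'
  have main := kstar hn hKc hx hy hxy hpK Y (fun h => hpK (hYK h)) _ hA hAS
  have hne : s(b, c) ≠ s(b, p) := by
    rw [Ne, Sym2.congr_right]
    exact hpc.symm
  have t1 : s(b, c) ∉ insert s(p, q) ({s(a, b)} : Finset (Sym2 (Fin N))) := by
    rw [mem_insert, mem_singleton, not_or]
    constructor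
    · intro h
      rcases Sym2.eq_iff.1 h with ⟨h', _⟩ | ⟨h', _⟩
      · exact hpb h'.symm
      · exact hqb h'.symm
    · intro h
      rcases Sym2.eq_iff.1 h with ⟨h', _⟩ | ⟨_, h'⟩
      · exact hab h'.symm
      · exact hac h'.symm
  have t2 : s(b, p) ∉ insert s(p, q) ({s(a, b)} : Finset (Sym2 (Fin N))) := by
    rw [mem_insert, mem_singleton, not_or]
    constructor
    · intro h
      rcases Sym2.eq_iff.1 h with ⟨h', _⟩ | ⟨h', _⟩
      · exact hpb h'.symm
      · exact hqb h'.symm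
    · intro h
      rcases Sym2.eq_iff.1 h with ⟨h', _⟩ | ⟨_, h'⟩
      · exact hab h'.symm
      · exact hpa h'
  have two := win1_two hne t1 t2
  have hout : ∀ e ∈ ({s(b, c), s(b, p)} : Finset (Sym2 (Fin N))), e ∉ ek K ∧ ¬ e.IsDiag ∧ e ∉ star p Y := by
    intro e he
    rw [mem_insert, mem_singleton] at he
    rcases he with rfl | rfl
    · refine ⟨fun h => hcK (mem_ek.1 h).2.2, by rw [Sym2.mk_isDiag_iff]; exact hbc, ?_⟩
      intro h
      obtain ⟨w, hw, hwe⟩ := mem_star.1 h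
      rcases Sym2.eq_iff.1 hwe with ⟨h', _⟩ | ⟨h', _⟩
      · exact hpb h'
      · exact hpc h'
    · refine ⟨fun h => hpK (mem_ek.1 h).2.2, by rw [Sym2.mk_isDiag_iff]; exact hpb.symm, ?_⟩
      intro h
      obtain ⟨w, hw, hwe⟩ := mem_star.1 h
      rcases Sym2.eq_iff.1 hwe with ⟨h', _⟩ | ⟨_, h'⟩
      · exact hpb h'
      · rw [h'] at hw
        exact notMem_erase _ _ hw
  have hout2 : ∀ e ∈ (ek K).erase s(x, y) ∪ star p Y, e ∉ ({s(b, c), s(b, p)} : Finset (Sym2 (Fin N))) := by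
    intro e he h
    obtain ⟨h1, _, h3⟩ := hout e h
    rcases mem_union.1 he with h' | h'
    · exact h1 (mem_of_mem_erase h')
    · exact h3 h'
  have total := win1_sum (anti_and (anti_WK K) (anti_nb _ _ _)) (anti_nboth _ _)
    (disjoint_left.2 hout2)
    (fun e he X h => ⟨WK_insert (hout e he).1 (hout e he).2.1 X h.1, by
      rw [nb_ins (hout e he).2.2]; exact h.2⟩)
    (fun e he X h h' => by
      have h4 := hout2 e he
      rw [mem_insert, mem_singleton, not_or] at h4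
      apply h
      exact ⟨(mem_insert.1 h'.1).resolve_left (fun h5 => h4.1 h5.symm),
        (mem_insert.1 h'.2).resolve_left (fun h5 => h4.2 h5.symm)⟩)
    main two
  have main2 : win1 (Rest n a b c) ((ek K).erase s(x, y) ∪ star p Y ∪ {s(b, c), s(b, p)})
      (insert s(p, q) {s(a, b)}) := by
    refine win1_imp ?_ total
    rintro X ⟨⟨h1, h2⟩, h3⟩
    refine ⟨p, hpa, hpc, h1, Or.inr ⟨hpb, h3, ?_⟩⟩
    rw [← hK]
    have h4 := nb_erase X hqK p
    have h5 := nb_erase X hbKq p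
    rw [← hY] at h5
    have h6 := ii_le X p q
    have h7 := ii_le X p b
    rw [hYc] at h2
    obtain ⟨k, hk⟩ := he
    omega
  have hσ : s(x, y) ∈ (insert s(b, c) (ek ({a, c} : Finset (Fin N))ᶜ)).erase s(p, q) := by
    rw [mem_erase]
    refine ⟨?_, mem_insert_of_mem (mem_ek.2 ⟨hxy, ?_, ?_⟩)⟩
    · intro h
      rcases Sym2.eq_iff.1 h with ⟨h', _⟩ | ⟨_, h'⟩
      · exact hpK (h' ▸ hx)
      · exact hpK (h' ▸ hy)
    · rw [hmK] at hx
      simp [hx.1, hx.2.1]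
    · rw [hmK] at hy
      simp [hy.1, hy.2.1]
  rw [win2_iff _ _ ⟨_, hσ⟩]
  refine ⟨_, hσ, win1_subset (anti_Rest n a b c) ?_ main2⟩
  intro f hf
  induction f using Sym2.ind with
  | _ r t =>
  rw [mem_erase, mem_erase, mem_insert] at hf
  obtain ⟨hf1, hf2, hf3⟩ := hf
  have haux : ∀ t, t ≠ a → t ≠ c → t ≠ p → s(p, t) ≠ s(p, q) →
      s(p, t) ∈ (ek K).erase s(x, y) ∪ star p Y ∪ {s(b, c), s(b, p)} := by
    intro t h1 h2 h3 h4
    by_cases htb : t = b
    · rw [mem_union, mem_insert, mem_singleton, htb]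
      exact Or.inr (Or.inr Sym2.eq_swap)
    · rw [mem_union, mem_union]
      refine Or.inl (Or.inr (mem_star.2 ⟨t, ?_, rfl⟩))
      rw [hY, mem_erase, mem_erase, hmK]
      exact ⟨htb, fun h => h4 (by rw [h]), h1, h2, h3⟩
  rcases hf3 with hf3 | hf3
  · rw [mem_union, mem_insert]
    exact Or.inr (Or.inl hf3)
  · obtain ⟨h1, h2, h3⟩ := mem_ek.1 hf3
    simp only [mem_compl, mem_insert, mem_singleton, not_or] at h2 h3
    by_cases hp : r = p
    · rw [hp] at hf2 ⊢ h1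
      exact haux t h3.1 h3.2 (fun h => h1 h.symm) hf2
    · by_cases hq : t = p
      · have hsw : s(r, t) = s(p, r) := by rw [hq]; exact Sym2.eq_swap
        rw [hsw] at hf2 ⊢
        exact haux r h2.1 h2.2 hp hf2
      · rw [mem_union, mem_union, mem_erase]
        exact Or.inl (Or.inl ⟨hf1, mem_ek.2 ⟨h1, (hmK r).2 ⟨h2.1, h2.2, hp⟩, (hmK t).2 ⟨h3.1, h3.2, hq⟩⟩⟩)

lemma rest_game {n N : ℕ} (hN : N = n + 3) (hn : ¬ P2wins n) (he : Even n) (hn2 : 2 ≤ n) {a b c : Fin N}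
    (hab : a ≠ b) (hac : a ≠ c) (hbc : b ≠ c) :
    win1 (Rest n a b c) (insert s(b, c) (ek ({a, c} : Finset (Fin N))ᶜ)) {s(a, b)} := by
  rw [win1_iff _ _ ⟨_, mem_insert_self _ _⟩]
  intro e hE
  induction e using Sym2.ind with
  | _ p q =>
  have key : ∀ q, q ≠ a → q ≠ b → s(b, q) ∈ insert s(b, c) (ek ({a, c} : Finset (Fin N))ᶜ) →
      win2 (Rest n a b c) ((insert s(b, c) (ek ({a, c} : Finset (Fin N))ᶜ)).erase s(b, q))
      (insert s(b, q) {s(a, b)}) := by
    intro q h1 h2 _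
    apply rest_b hN hn he hn2 hab hac hbc
    rw [mem_insert]
    by_cases h3 : q = c
    · exact Or.inl h3
    · right
      simp [h1, h2, h3]
  by_cases hcase : s(p, q) = s(b, c)
  · rw [hcase] at hE ⊢
    exact key c hac.symm hbc.symm hE
  · have h0 := (mem_insert.1 hE).resolve_left hcase
    obtain ⟨h1, h2, h3⟩ := mem_ek.1 h0
    simp only [mem_compl, mem_insert, mem_singleton, not_or] at h2 h3
    by_cases hp : p = b
    · rw [hp] at hE ⊢ h1
      exact key q h3.1 (fun h => h1 h.symm) hE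
    · by_cases hq : q = b
      · have hsw : s(p, q) = s(b, p) := by rw [hq]; exact Sym2.eq_swap
        rw [hsw] at hE ⊢
        exact key p h2.1 hp hE
      · exact rest_p hN hn he hn2 hab hac hbc h2.1 h2.2 hp h3.1 h3.2 hq h1

end Pool.Agent.H343S
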