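import Pool.Agent.H343S.Game

set_option autoImplicit false

namespace Pool.Agent.H343S

open Finset

/-- the edges of the complete graph on `n` vertices -/
def Ed (n : ℕ) : Finset (Sym2 (Fin n)) := univ.filter fun e => ¬ e.IsDiag

/-- the degree of `u` in the graph with edge set `X` -/
def deg {n : ℕ} (X : Finset (Sym2 (Fin n))) (u : Fin n) : ℕ := (X.filter fun e => u ∈ e).card

/-- the maximum degree -/
def maxDeg {n : ℕ} (X : Finset (Sym2 (Fin n))) : ℕ := univ.sup (deg X)

/-- Player 2 wins if Player 1's graph is `X` -/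
def Out (n : ℕ) (X : Finset (Sym2 (Fin n))) : Prop := maxDeg X ≤ maxDeg (Ed n \ X)

/-- `Star(n)` is a Player 2 win -/
def P2wins (n : ℕ) : Prop := win1 (Out n) (Ed n) ∅

/-- the number of neighbours of `u` in `K` -/
def nb {n : ℕ} (X : Finset (Sym2 (Fin n))) (K : Finset (Fin n)) (u : Fin n) : ℕ :=
  (K.filter fun y => s(u, y) ∈ X).card

lemma mem_Ed {n : ℕ} {x y : Fin n} : s(x, y) ∈ Ed n ↔ x ≠ y := by
  simp [Ed]

lemma deg_eq {n : ℕ} (X : Finset (Sym2 (Fin n))) (u : Fin n) : deg X u = nb X univ u := by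
  unfold deg nb
  have : X.filter (fun e => u ∈ e) = (univ.filter (fun y => s(u, y) ∈ X)).image (fun y => s(u, y)) := by
    ext e
    simp only [mem_filter, mem_image, mem_univ, true_and]
    constructor
    · rintro ⟨he, hu⟩
      obtain ⟨y, rfl⟩ := hu
      exact ⟨y, he, rfl⟩
    · rintro ⟨y, hy, rfl⟩
      exact ⟨hy, Sym2.mem_mk_left u y⟩
  rw [this, card_image_of_injective _ (fun a b h => Sym2.congr_right.1 h)]

lemma nb_mono {n : ℕ} {X Y : Finset (Sym2 (Fin n))} (h : X ⊆ Y) (K : Finset (Fin n)) (u : Fin n) :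
    nb X K u ≤ nb Y K u := by
  apply card_le_card
  intro y hy
  rw [mem_filter] at hy ⊢
  exact ⟨hy.1, h hy.2⟩

lemma nb_union {n : ℕ} (X : Finset (Sym2 (Fin n))) {K T : Finset (Fin n)} (hd : Disjoint K T)
    (u : Fin n) : nb X (K ∪ T) u = nb X K u + nb X T u := by
  unfold nb
  rw [filter_union, card_union_of_disjoint (disjoint_filter_filter hd)]

lemma deg_compl {n : ℕ} {X : Finset (Sym2 (Fin n))} (hX : X ⊆ Ed n) (u : Fin n) :
    deg (Ed n \ X) u + deg X u + 1 = n := by
  rw [deg_eq, deg_eq]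
  unfold nb
  rw [← card_union_of_disjoint]
  · have : univ.filter (fun y => s(u, y) ∈ Ed n \ X) ∪ univ.filter (fun y => s(u, y) ∈ X) =
        univ.erase u := by
      ext y
      simp only [mem_union, mem_filter, mem_univ, true_and, mem_sdiff, mem_Ed, mem_erase, and_true]
      constructor
      · rintro (h | h)
        · exact fun h' => h.1 h'.symm
        · have := mem_Ed.1 (hX h)
          exact fun h' => this h'.symm
      · intro h
        by_cases hy : s(u, y) ∈ X
        · exact Or.inr hy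
        · exact Or.inl ⟨fun h' => h h'.symm, hy⟩
    rw [this, card_erase_of_mem (mem_univ _), card_univ, Fintype.card_fin]
    have := u.pos
    omega
  · rw [disjoint_left]
    intro y hy hy'
    rw [mem_filter] at hy hy'
    exact (mem_sdiff.1 hy.2).2 hy'.2

lemma out_of {n : ℕ} {X : Finset (Sym2 (Fin n))} (hX : X ⊆ Ed n)
    (h : ∀ u, ∃ u', nb X univ u + nb X univ u' + 1 ≤ n) : Out n X := by
  unfold Out maxDeg
  refine Finset.sup_le fun u _ => ?_
  obtain ⟨u', hu'⟩ := h u
  refine le_trans ?_ (Finset.le_sup (f := deg (Ed n \ X)) (mem_univ u'))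
  have h1 := deg_compl hX u'
  rw [← deg_eq, ← deg_eq] at hu'
  omega

lemma not_out {n : ℕ} {X : Finset (Sym2 (Fin n))} (hX : X ⊆ Ed n) (h : ¬ Out n (Ed n \ X)) :
    ∃ u0, ∀ u, nb X univ u + nb X univ u0 + 2 ≤ n := by
  unfold Out at h
  rw [Finset.sdiff_sdiff_eq_self hX, not_le] at h
  unfold maxDeg at h
  have hne : (univ : Finset (Fin n)).Nonempty := by
    rw [nonempty_iff_ne_empty]
    intro h0
    rw [h0] at h
    simp at h
  obtain ⟨u0, -, hu0⟩ := exists_mem_eq_sup univ hne (deg (Ed n \ X))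
  refine ⟨u0, fun u => ?_⟩
  have h1 : deg X u ≤ univ.sup (deg X) := Finset.le_sup (f := deg X) (mem_univ u)
  have h2 := deg_compl hX u0
  rw [← deg_eq, ← deg_eq]
  omega

/-- the edges inside `K` -/
def ek {N : ℕ} (K : Finset (Fin N)) : Finset (Sym2 (Fin N)) := (Ed N).filter fun e => ∀ x ∈ e, x ∈ K

lemma mem_ek {N : ℕ} {K : Finset (Fin N)} {x y : Fin N} :
    s(x, y) ∈ ek K ↔ x ≠ y ∧ x ∈ K ∧ y ∈ K := by
  unfold ek
  rw [mem_filter, mem_Ed]
  simp [Sym2.mem_iff]

/-- the opponent of Player 1 has the larger maximum degree inside `K` -/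
def WK {N : ℕ} (K : Finset (Fin N)) (X : Finset (Sym2 (Fin N))) : Prop :=
  ∃ u0 ∈ K, ∀ u ∈ K, nb X K u + nb X K u0 + 2 ≤ K.card

lemma anti_WK {N : ℕ} (K : Finset (Fin N)) : Anti (WK K) := by
  rintro X Y hXY ⟨u0, h0, h⟩
  refine ⟨u0, h0, fun u hu => ?_⟩
  have := h u hu
  have h1 := nb_mono hXY K u
  have h2 := nb_mono hXY K u0
  omega

lemma nb_insert {N : ℕ} {K : Finset (Fin N)} {u : Fin N} (hu : u ∈ K) {e : Sym2 (Fin N)}
    (he : e ∉ ek K) (hd : ¬ e.IsDiag) (X : Finset (Sym2 (Fin N))) : nb (insert e X) K u = nb X K u := by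
  unfold nb
  congr 1
  apply filter_congr
  intro y hy
  rw [mem_insert]
  constructor
  · rintro (h | h)
    · exfalso
      apply he
      rw [← h, mem_ek]
      refine ⟨?_, hu, hy⟩
      rintro rfl
      rw [← h] at hd
      exact hd rfl
    · exact h
  · exact Or.inr

lemma WK_insert {N : ℕ} {K : Finset (Fin N)} {e : Sym2 (Fin N)}
    (he : e ∉ ek K) (hd : ¬ e.IsDiag) (X : Finset (Sym2 (Fin N))) (h : WK K X) : WK K (insert e X) := by
  obtain ⟨u0, h0, h⟩ := h
  refine ⟨u0, h0, fun u hu => ?_⟩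
  rw [nb_insert hu he hd, nb_insert h0 he hd]
  exact h u hu

theorem kgame {n N : ℕ} (hn : ¬ P2wins n) (K : Finset (Fin N)) (hK : K.card = n) {x y : Fin N}
    (hx : x ∈ K) (hy : y ∈ K) (hxy : x ≠ y) (C : Finset (Sym2 (Fin N)))
    (hC : ∀ e ∈ C, e ∉ ek K ∧ ¬ e.IsDiag) : win1 (WK K) ((ek K).erase s(x, y)) C := by
  have hne : (Ed n).Nonempty := by
    by_contra h0
    rw [not_nonempty_iff_eq_empty] at h0
    apply hn
    unfold P2wins
    rw [h0, win1_empty]
    unfold Out maxDeg deg
    simp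
  unfold P2wins at hn
  rw [win1_iff _ _ hne] at hn
  push Not at hn
  obtain ⟨e, he, hw⟩ := hn
  have h1 := dual (B := Ed n) _ ((Ed n).erase e) (insert e ∅) ∅ rfl
    (by rw [union_empty, insert_empty_eq, singleton_union, insert_erase he])
    (by rw [insert_empty_eq, disjoint_singleton_left]; exact notMem_erase _ _)
    (disjoint_empty_right _) (disjoint_empty_right _) hw
  have h2 : win1 (fun X => ∃ u0, ∀ u, nb X univ u + nb X univ u0 + 2 ≤ n) ((Ed n).erase e) ∅ := by
    refine win1_mono (disjoint_empty_left _) ?_ h1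
    intro X _ hX _ hout
    refine not_out ?_ hout
    rw [empty_union] at hX
    exact hX.trans (erase_subset _ _)
  -- the bijection
  induction e using Sym2.ind with
  | _ p q =>
  have hpq : p ≠ q := mem_Ed.1 he
  have hcard : Fintype.card (Fin n) = Fintype.card K := by simp [hK]
  let g0 : Fin n ≃ K := Fintype.equivOfCardEq hcard
  let g1 : Fin n ≃ K := g0.trans (Equiv.swap (g0 p) ⟨x, hx⟩)
  have hg1 : g1 p = ⟨x, hx⟩ := by simp [g1]
  let g2 : Fin n ≃ K := g1.trans (Equiv.swap (g1 q) ⟨y, hy⟩)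
  have hg2q : g2 q = ⟨y, hy⟩ := by simp [g2]
  have hg2p : g2 p = ⟨x, hx⟩ := by
    show Equiv.swap (g1 q) ⟨y, hy⟩ (g1 p) = _
    rw [hg1]
    apply Equiv.swap_apply_of_ne_of_ne
    · rw [← hg1]
      intro h
      exact hpq (g1.injective h)
    · intro h
      exact hxy (congrArg Subtype.val h)
  let j : Fin n ↪ Fin N := g2.toEmbedding.trans (Function.Embedding.subtype _)
  have hj : ∀ u, j u ∈ K := fun u => (g2 u).2
  have hjs : ∀ z ∈ K, ∃ u, j u = z := by
    intro z hz
    refine ⟨g2.symm ⟨z, hz⟩, ?_⟩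
    simp [j]
  have hjp : j p = x := by simp [j, hg2p]
  have hjq : j q = y := by simp [j, hg2q]
  have h3 := win1_transport (W' := WK K) j.sym2Map C ?_ h2
  · have e1 : ((Ed n).erase s(p, q)).map j.sym2Map = (ek K).erase s(x, y) := by
      rw [map_erase]
      have e2 : (Ed n).map j.sym2Map = ek K := by
        ext z
        induction z using Sym2.ind with
        | _ a b =>
        rw [mem_map, mem_ek]
        constructor
        · rintro ⟨z, hz, hz2⟩
          induction z using Sym2.ind with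
          | _ c d =>
          have hcd : c ≠ d := mem_Ed.1 hz
          simp only [Function.Embedding.sym2Map_apply, Sym2.map_mk] at hz2
          rcases Sym2.eq_iff.1 hz2 with ⟨rfl, rfl⟩ | ⟨rfl, rfl⟩
          · exact ⟨fun h => hcd (j.injective h), hj _, hj _⟩
          · exact ⟨fun h => hcd (j.injective h.symm), hj _, hj _⟩
        · rintro ⟨hab, ha, hb⟩
          obtain ⟨c, rfl⟩ := hjs a ha
          obtain ⟨d, rfl⟩ := hjs b hb
          refine ⟨s(c, d), mem_Ed.2 fun h => hab (by rw [h]), ?_⟩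
          simp
      rw [e2]
      congr 1
      simp [hjp, hjq]
    rw [e1, map_empty, empty_union] at h3
    exact h3
  · rintro X ⟨u0, hu0⟩
    have hnb : ∀ u, nb (X.map j.sym2Map ∪ C) K (j u) = nb X univ u := by
      intro u
      unfold nb
      rw [← card_map j]
      congr 1
      ext z
      rw [mem_filter, mem_map, mem_union]
      constructor
      · rintro ⟨hz, h⟩
        obtain ⟨w, rfl⟩ := hjs z hz
        refine ⟨w, ?_, rfl⟩
        rw [mem_filter]
        refine ⟨mem_univ _, ?_⟩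
        rcases h with h | h
        · have : s(j u, j w) = j.sym2Map s(u, w) := by simp
          rw [this, mem_map'] at h
          exact h
        · exfalso
          obtain ⟨h4, h5⟩ := hC _ h
          apply h4
          rw [mem_ek]
          refine ⟨?_, hj _, hj _⟩
          intro h6
          apply h5
          rw [h6]
          exact rfl
      · rintro ⟨w, hw, rfl⟩
        rw [mem_filter] at hw
        refine ⟨hj _, Or.inl ?_⟩
        have : s(j u, j w) = j.sym2Map s(u, w) := by simp
        rw [this, mem_map']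
        exact hw.2
    refine ⟨j u0, hj _, fun u hu => ?_⟩
    obtain ⟨w, rfl⟩ := hjs u hu
    rw [hnb, hnb, hK]
    exact hu0 w

end Pool.Agent.H343S
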