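import Pool.Agent.H343S.Count

set_option autoImplicit false

namespace Pool.Agent.H343S

open Finset

variable {N : ℕ}

/-- the edges from `v` to `Y` -/
def star (v : Fin N) (Y : Finset (Fin N)) : Finset (Sym2 (Fin N)) := Y.image fun y => s(v, y)

lemma mem_star {v : Fin N} {Y : Finset (Fin N)} {e : Sym2 (Fin N)} :
    e ∈ star v Y ↔ ∃ y ∈ Y, s(v, y) = e := by
  unfold star
  rw [mem_image]

lemma card_star (v : Fin N) (Y : Finset (Fin N)) : (star v Y).card = Y.card :=
  card_image_of_injective _ (fun _ _ h => Sym2.congr_right.1 h)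

lemma card_inter_star (X : Finset (Sym2 (Fin N))) (v : Fin N) (Y : Finset (Fin N)) :
    (X ∩ star v Y).card = nb X Y v := by
  unfold nb
  rw [← card_image_of_injective (Y.filter fun y => s(v, y) ∈ X)
    (fun _ _ h => Sym2.congr_right.1 h : Function.Injective fun y => s(v, y))]
  congr 1
  ext e
  rw [mem_inter, mem_star, mem_image]
  constructor
  · rintro ⟨h, y, hy, rfl⟩
    exact ⟨y, mem_filter.2 ⟨hy, h⟩, rfl⟩
  · rintro ⟨y, hy, rfl⟩
    rw [mem_filter] at hy
    exact ⟨hy.2, y, hy.1, rfl⟩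

lemma win1_star (v : Fin N) (Y : Finset (Fin N)) (A : Finset (Sym2 (Fin N)))
    (hA : Disjoint A (star v Y)) : win1 (fun X => 2 * nb X Y v ≤ Y.card + 1) (star v Y) A := by
  refine win1_imp ?_ (win1_half (star v Y) A hA)
  intro X h
  rwa [card_inter_star, card_star] at h

lemma anti_nb (Y : Finset (Fin N)) (v : Fin N) (m : ℕ) : Anti (fun X => 2 * nb X Y v ≤ m) := by
  intro X Z hXZ h
  have := nb_mono hXZ Y v
  show 2 * nb X Y v ≤ m
  have h' : 2 * nb Z Y v ≤ m := h
  omega

lemma nb_ins {v : Fin N} {Y : Finset (Fin N)} {e : Sym2 (Fin N)} (he : e ∉ star v Y)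
    (X : Finset (Sym2 (Fin N))) : nb (insert e X) Y v = nb X Y v := by
  unfold nb
  congr 1
  apply filter_congr
  intro y hy
  rw [mem_insert]
  constructor
  · rintro (h | h)
    · exact absurd (mem_star.2 ⟨y, hy, h⟩) he
    · exact h
  · exact Or.inr

lemma anti_and {W1 W2 : Finset (Sym2 (Fin N)) → Prop} (h1 : Anti W1) (h2 : Anti W2) :
    Anti (fun X => W1 X ∧ W2 X) := fun X Y hXY h => ⟨h1 X Y hXY h.1, h2 X Y hXY h.2⟩

lemma anti_nboth (e f : Sym2 (Fin N)) : Anti (fun X : Finset (Sym2 (Fin N)) => ¬ (e ∈ X ∧ f ∈ X)) :=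
  fun _ _ hXY h h' => h ⟨hXY h'.1, hXY h'.2⟩

/-- two elements: Player 1 does not get both -/
lemma win1_two {e f : Sym2 (Fin N)} (hef : e ≠ f) {A : Finset (Sym2 (Fin N))} (he : e ∉ A) (hf : f ∉ A) :
    win1 (fun X => ¬ (e ∈ X ∧ f ∈ X)) {e, f} A := by
  have hd : Disjoint A ({e, f} : Finset (Sym2 (Fin N))) := by
    rw [disjoint_right]
    intro x hx
    rcases mem_insert.1 hx with rfl | hx
    · exact he
    · rw [mem_singleton] at hx
      rwa [hx]
  refine win1_imp ?_ (win1_half {e, f} A hd)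
  rintro X h ⟨h1, h2⟩
  have h3 : ({e, f} : Finset (Sym2 (Fin N))) ⊆ X ∩ {e, f} := by
    intro x hx
    rw [mem_inter]
    refine ⟨?_, hx⟩
    rcases mem_insert.1 hx with rfl | hx
    · exact h1
    · rw [mem_singleton] at hx
      rwa [hx]
  have h4 := card_le_card h3
  rw [card_pair hef] at h4 h
  omega

/-- the pairs `{s(a,y), s(c,y)}` -/
lemma win1_pairs {a c : Fin N} (hac : a ≠ c) (A : Finset (Sym2 (Fin N))) : ∀ Y : Finset (Fin N),
    a ∉ Y → c ∉ Y → Disjoint A (star a Y ∪ star c Y) →
    win1 (fun X => ∀ y ∈ Y, ¬ (s(a, y) ∈ X ∧ s(c, y) ∈ X)) (star a Y ∪ star c Y) A := by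
  intro Y
  induction Y using Finset.induction_on with
  | empty =>
    intro _ _ _
    simp only [star, image_empty, union_empty, win1_empty]
    simp
  | insert z Y hz ih =>
    intro ha hc hd
    rw [mem_insert, not_or] at ha hc
    have hsub : star a Y ∪ star c Y ⊆ star a (insert z Y) ∪ star c (insert z Y) :=
      union_subset_union (image_subset_image (subset_insert _ _)) (image_subset_image (subset_insert _ _))
    have h1 := ih ha.2 hc.2 (disjoint_of_subset_right hsub hd)
    have hza : s(a, z) ∈ star a (insert z Y) ∪ star c (insert z Y) :=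
      mem_union_left _ (mem_star.2 ⟨z, mem_insert_self _ _, rfl⟩)
    have hzc : s(c, z) ∈ star a (insert z Y) ∪ star c (insert z Y) :=
      mem_union_right _ (mem_star.2 ⟨z, mem_insert_self _ _, rfl⟩)
    have hne : s(a, z) ≠ s(c, z) := by
      intro h
      exact hac (Sym2.congr_left.1 h)
    have h2 := win1_two hne (disjoint_right.1 hd hza) (disjoint_right.1 hd hzc)
    have hE : star a (insert z Y) ∪ star c (insert z Y) =
        {s(a, z), s(c, z)} ∪ (star a Y ∪ star c Y) := by
      ext e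
      simp only [mem_union, mem_star, mem_insert, mem_singleton, exists_eq_or_imp]
      constructor
      · rintro ((h | h) | (h | h))
        · exact Or.inl (Or.inl h.symm)
        · exact Or.inr (Or.inl h)
        · exact Or.inl (Or.inr h.symm)
        · exact Or.inr (Or.inr h)
      · rintro ((h | h) | (h | h))
        · exact Or.inl (Or.inl h.symm)
        · exact Or.inr (Or.inl h.symm)
        · exact Or.inl (Or.inr h)
        · exact Or.inr (Or.inr h)
    rw [hE]
    -- no edge of the pair at z is in the stars of Y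
    have hout : ∀ e ∈ ({s(a, z), s(c, z)} : Finset (Sym2 (Fin N))), e ∉ star a Y ∪ star c Y := by
      intro e he h
      rw [mem_insert, mem_singleton] at he
      rw [mem_union, mem_star, mem_star] at h
      rcases he with rfl | rfl
      · rcases h with ⟨y, hy, h⟩ | ⟨y, hy, h⟩
        · rw [Sym2.congr_right] at h
          exact hz (h ▸ hy)
        · rcases Sym2.eq_iff.1 h with ⟨h', _⟩ | ⟨h', _⟩
          · exact hac h'.symm
          · exact hc.1 h'
      · rcases h with ⟨y, hy, h⟩ | ⟨y, hy, h⟩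
        · rcases Sym2.eq_iff.1 h with ⟨h', _⟩ | ⟨h', _⟩
          · exact hac h'
          · exact ha.1 h'
        · rw [Sym2.congr_right] at h
          exact hz (h ▸ hy)
    refine win1_imp ?_ (win1_sum (anti_nboth _ _) ?_ ?_ ?_ ?_ h2 h1)
    · rintro X ⟨h3, h4⟩ y hy
      rcases mem_insert.1 hy with rfl | hy
      · exact h3
      · exact h4 y hy
    · intro X Z hXZ h y hy h'
      exact h y hy ⟨hXZ h'.1, hXZ h'.2⟩
    · rw [disjoint_left]
      exact hout
    · rintro e he X h ⟨h3, h4⟩
      apply h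
      constructor
      · rcases mem_insert.1 h3 with h3 | h3
        · exact absurd (h3 ▸ he) (hout _ (by simp))
        · exact h3
      · rcases mem_insert.1 h4 with h4 | h4
        · exact absurd (h4 ▸ he) (hout _ (by simp))
        · exact h4
    · rintro e he X h y hy ⟨h3, h4⟩
      apply h y hy
      constructor
      · rcases mem_insert.1 h3 with h3 | h3
        · exact absurd (mem_union_left _ (mem_star.2 ⟨y, hy, h3⟩)) (hout _ he)
        · exact h3
      · rcases mem_insert.1 h4 with h4 | h4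
        · exact absurd (mem_union_right _ (mem_star.2 ⟨y, hy, h4⟩)) (hout _ he)
        · exact h4

/-- the `K`-game together with a star -/
lemma kstar {n : ℕ} (hn : ¬ P2wins n) {K : Finset (Fin N)} (hK : K.card = n) {x y : Fin N}
    (hx : x ∈ K) (hy : y ∈ K) (hxy : x ≠ y) {v : Fin N} (hv : v ∉ K) (Y : Finset (Fin N)) (hvY : v ∉ Y)
    (A : Finset (Sym2 (Fin N))) (hA : ∀ e ∈ A, e ∉ ek K ∧ ¬ e.IsDiag) (hAS : Disjoint A (star v Y)) :
    win1 (fun X => WK K X ∧ 2 * nb X Y v ≤ Y.card + 1) ((ek K).erase s(x, y) ∪ star v Y) A := by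
  have hs : ∀ e ∈ star v Y, e ∉ ek K ∧ ¬ e.IsDiag := by
    intro e he
    obtain ⟨z, hz, rfl⟩ := mem_star.1 he
    refine ⟨fun h => hv (mem_ek.1 h).2.1, ?_⟩
    rw [Sym2.mk_isDiag_iff]
    rintro rfl
    exact hvY hz
  refine win1_sum (anti_WK K) (anti_nb _ _ _) ?_ ?_ ?_ (kgame hn K hK hx hy hxy A hA)
    (win1_star v Y A hAS)
  · rw [disjoint_right]
    intro e he h
    exact (hs e he).1 (mem_of_mem_erase h)
  · intro e he X h
    exact WK_insert (hs e he).1 (hs e he).2 X h
  · intro e he X h
    have : e ∉ star v Y := fun h' => (hs e h').1 (mem_of_mem_erase he)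
    rw [nb_ins this]
    exact h

end Pool.Agent.H343S
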