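import Pool.Agent.H343S.Three

set_option autoImplicit false

namespace Pool.Agent.H343S

open Finset

/-- goal of Player 2 -/
def W1g {N : ℕ} (n : ℕ) (X : Finset (Sym2 (Fin N))) : Prop :=
  ∃ v : Fin N, WK ({v} : Finset (Fin N))ᶜ X ∧ 2 * nb X ({v} : Finset (Fin N))ᶜ v ≤ n + 2

lemma anti_W1g {N : ℕ} (n : ℕ) : Anti (W1g (N := N) n) := by
  rintro X Y hXY ⟨v, h1, h2⟩
  have := nb_mono hXY ({v} : Finset (Fin N))ᶜ v
  exact ⟨v, anti_WK _ X Y hXY h1, by omega⟩

lemma game1 {n N : ℕ} (hN : N = n + 1) (hn : ¬ P2wins n) (hn2 : 2 ≤ n) :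
    win1 (W1g (N := N) n) (Ed N) ∅ := by
  have hne : (Ed N).Nonempty := by
    subst hN
    refine ⟨s(⟨0, by omega⟩, ⟨1, by omega⟩), ?_⟩
    rw [mem_Ed]
    intro h
    have := congrArg Fin.val h
    simp at this
  rw [win1_iff _ _ hne]
  intro e hE
  induction e using Sym2.ind with
  | _ v b =>
  have hvb : v ≠ b := mem_Ed.1 hE
  have hins : insert s(v, b) (∅ : Finset (Sym2 (Fin N))) = {s(v, b)} := rfl
  rw [hins]
  set K := ({v} : Finset (Fin N))ᶜ with hK
  have hmK : ∀ y, y ∈ K ↔ y ≠ v := by intro y; rw [hK]; simp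
  have hKc : K.card = n := by
    rw [hK, card_compl, Fintype.card_fin, card_singleton]
    omega
  have hvK : v ∉ K := fun h => (hmK v).1 h rfl
  have hbK : b ∈ K := (hmK b).2 hvb.symm
  obtain ⟨x, hx, y, hy, hxy⟩ := one_lt_card.1 (show 1 < K.card by omega)
  set Y := K.erase b with hY
  have hYc : Y.card = n - 1 := by rw [hY, card_erase_of_mem hbK, hKc]
  have hvY : v ∉ Y := fun h => hvK (mem_of_mem_erase h)
  have main := kstar hn hKc hx hy hxy hvK Y hvY {s(v, b)}
    (by
      intro e he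
      rw [mem_singleton] at he
      rw [he]
      refine ⟨fun h => hvK (mem_ek.1 h).2.1, ?_⟩
      rw [Sym2.mk_isDiag_iff]
      exact hvb)
    (by
      rw [disjoint_singleton_left, mem_star]
      rintro ⟨w, hw, h⟩
      rw [Sym2.congr_right] at h
      rw [h] at hw
      exact notMem_erase _ _ hw)
  have main2 : win1 (W1g (N := N) n) ((ek K).erase s(x, y) ∪ star v Y) {s(v, b)} := by
    refine win1_imp ?_ main
    rintro X ⟨h1, h2⟩
    refine ⟨v, h1, ?_⟩
    rw [← hK]
    have h4 : nb X K v = ii X v b + nb X Y v := by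
      rw [nb_sum, nb_sum, hY, add_sum_erase K _ hbK]
    have h5 := ii_le X v b
    omega
  have hσ : s(x, y) ∈ (Ed N).erase s(v, b) := by
    rw [mem_erase, mem_Ed]
    refine ⟨?_, hxy⟩
    intro h
    rcases Sym2.eq_iff.1 h with ⟨h', _⟩ | ⟨_, h'⟩
    · exact hvK (h' ▸ hx)
    · exact hvK (h' ▸ hy)
  rw [win2_iff _ _ ⟨_, hσ⟩]
  refine ⟨_, hσ, win1_subset (anti_W1g n) ?_ main2⟩
  intro f hf
  induction f using Sym2.ind with
  | _ p q =>
  rw [mem_erase, mem_erase, mem_Ed] at hf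
  obtain ⟨g1, g2, g3⟩ := hf
  have aux : ∀ q, v ≠ q → s(v, q) ≠ s(v, b) → s(v, q) ∈ star v Y := by
    intro q k1 k2
    refine mem_star.2 ⟨q, ?_, rfl⟩
    rw [hY, mem_erase, hmK]
    exact ⟨fun h => k2 (by rw [h]), k1.symm⟩
  rw [mem_union]
  by_cases hp : p = v
  · right
    rw [hp] at g2 g3 ⊢
    exact aux q g3 g2
  · by_cases hq : q = v
    · right
      have hsw : s(p, q) = s(v, p) := by rw [hq]; exact Sym2.eq_swap
      rw [hsw] at g2 ⊢
      exact aux p (fun h => hp h.symm) g2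
    · left
      rw [mem_erase]
      exact ⟨g1, mem_ek.2 ⟨g3, (hmK p).2 hp, (hmK q).2 hq⟩⟩

/-- If `Star(n)` is a Player 1 win and `n ≥ 5`, then `Star(n + 1)` is a Player 2 win. -/
theorem offset1 {n : ℕ} (hn : ¬ P2wins n) (h5 : 5 ≤ n) : P2wins (n + 1) := by
  refine win1_mono (disjoint_empty_left _) ?_ (game1 rfl hn (by omega))
  rintro X _ hX hc ⟨v, hK, hv⟩
  rw [empty_union] at hX
  have hE := card_Ed (n + 1)
  have e1 : n + 1 - 1 = n := by omega
  rw [e1] at hE
  rw [card_empty] at hc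
  have hc' : (n + 1) * n ≤ 4 * X.card := by omega
  have hKc : (({v} : Finset (Fin (n + 1)))ᶜ).card = n := by
    rw [card_compl, Fintype.card_fin, card_singleton]; omega
  set K := ({v} : Finset (Fin (n + 1)))ᶜ with hKd
  have split : ∀ u, nb X univ u = nb X K u + ii X u v := by
    intro u
    rw [nb_compl X K u, hKd, compl_compl]
    congr 1
    rw [nb_sum, sum_singleton]
  have hself := ii_self hX v
  obtain ⟨u0, hu0, hu⟩ := hK
  rw [hKc] at hu
  have hu00 := hu u0 hu0
  have hl0 := ii_le X u0 v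
  apply out_of hX
  intro z
  refine ⟨u0, ?_⟩
  by_cases hz : z ∈ K
  · rw [split z, split u0]
    have := hu z hz
    have := ii_le X z v
    omega
  · rw [hKd, mem_compl, not_not, mem_singleton] at hz
    subst hz
    rw [split z, split u0]
    by_cases hreg : 2 * nb X K z + 2 * nb X K u0 + 2 ≤ 2 * n
    · omega
    · exfalso
      have hall : ∀ u ∈ K, 2 * nb X K u ≤ n - 2 := by
        intro u hu'
        have := hu u hu'
        omega
      have h1 := count hX K
      have h2 : 2 * ∑ u ∈ K, nb X K u ≤ n * (n - 2) := by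
        rw [mul_sum]
        calc ∑ u ∈ K, 2 * nb X K u ≤ ∑ u ∈ K, (n - 2) := sum_le_sum hall
          _ = n * (n - 2) := by rw [sum_const, hKc, smul_eq_mul]
      have h3 : ∑ t ∈ Kᶜ, nb X univ t = nb X univ z := by
        rw [hKd, compl_compl, sum_singleton]
      rw [h3, split z] at h1
      obtain ⟨m, rfl⟩ : ∃ m, n = m + 2 := ⟨n - 2, by omega⟩
      have e2 : m + 2 - 2 = m := by omega
      rw [e2] at h2
      nlinarith

end Pool.Agent.H343S
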