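import Pool.Agent.H343S.Three

set_option autoImplicit false

namespace Pool.Agent.H343S

open Finset

/-- goal of Player 2 for given `w`, `x` -/
def V2 {N : ℕ} (w x : Fin N) (X : Finset (Sym2 (Fin N))) : Prop :=
  WK ({w, x} : Finset (Fin N))ᶜ X ∧ ∃ t, ∀ y ∈ ({w, x} : Finset (Fin N))ᶜ, y ≠ t →
    ¬ (s(w, y) ∈ X ∧ s(x, y) ∈ X)

/-- goal of Player 2 -/
def W2g {N : ℕ} (X : Finset (Sym2 (Fin N))) : Prop := ∃ w x : Fin N, w ≠ x ∧ s(w, x) ∉ X ∧ V2 w x X

lemma anti_V2 {N : ℕ} (w x : Fin N) : Anti (V2 w x) := by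
  rintro X Y hXY ⟨h1, t, h2⟩
  exact ⟨anti_WK _ X Y hXY h1, t, fun y hy ht h => h2 y hy ht ⟨hXY h.1, hXY h.2⟩⟩

/-- the `K`-game together with pairs -/
lemma kpairs {n N : ℕ} (hn : ¬ P2wins n) {w x : Fin N} (hwx : w ≠ x)
    (hKc : (({w, x} : Finset (Fin N))ᶜ).card = n) {r t : Fin N} (hr : r ∈ ({w, x} : Finset (Fin N))ᶜ)
    (ht : t ∈ ({w, x} : Finset (Fin N))ᶜ) (hrt : r ≠ t) (Y : Finset (Fin N))
    (hY : Y ⊆ ({w, x} : Finset (Fin N))ᶜ) (A : Finset (Sym2 (Fin N)))
    (hA : ∀ e ∈ A, e ∉ ek ({w, x} : Finset (Fin N))ᶜ ∧ ¬ e.IsDiag)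
    (hAS : Disjoint A (star w Y ∪ star x Y)) :
    win1 (fun X => WK ({w, x} : Finset (Fin N))ᶜ X ∧ ∀ y ∈ Y, ¬ (s(w, y) ∈ X ∧ s(x, y) ∈ X))
      ((ek ({w, x} : Finset (Fin N))ᶜ).erase s(r, t) ∪ (star w Y ∪ star x Y)) A := by
  set K := ({w, x} : Finset (Fin N))ᶜ with hK
  have hwK : w ∉ K := by rw [hK]; simp
  have hxK : x ∉ K := by rw [hK]; simp
  have hwY : w ∉ Y := fun h => hwK (hY h)
  have hxY : x ∉ Y := fun h => hxK (hY h)
  have hs : ∀ e ∈ star w Y ∪ star x Y, e ∉ ek K ∧ ¬ e.IsDiag := by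
    intro e he
    rcases mem_union.1 he with h | h
    · obtain ⟨z, hz, rfl⟩ := mem_star.1 h
      refine ⟨fun h => hwK (mem_ek.1 h).2.1, ?_⟩
      rw [Sym2.mk_isDiag_iff]
      rintro rfl
      exact hwY hz
    · obtain ⟨z, hz, rfl⟩ := mem_star.1 h
      refine ⟨fun h => hxK (mem_ek.1 h).2.1, ?_⟩
      rw [Sym2.mk_isDiag_iff]
      rintro rfl
      exact hxY hz
  refine win1_sum (anti_WK K) (fun X Z hXZ h y hy h' => h y hy ⟨hXZ h'.1, hXZ h'.2⟩) ?_ ?_ ?_
    (kgame hn K hKc hr ht hrt A hA) (win1_pairs hwx A Y hwY hxY hAS)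
  · rw [disjoint_right]
    intro e he h
    exact (hs e he).1 (mem_of_mem_erase h)
  · intro e he X h
    exact WK_insert (hs e he).1 (hs e he).2 X h
  · intro e he X h y hy h'
    have he' := mem_of_mem_erase he
    apply h y hy
    constructor
    · refine (mem_insert.1 h'.1).resolve_left ?_
      rintro rfl
      exact hwK (mem_ek.1 he').2.1
    · refine (mem_insert.1 h'.2).resolve_left ?_
      rintro rfl
      exact hxK (mem_ek.1 he').2.1

lemma state2 {n N : ℕ} (hN : N = n + 2) (hn : ¬ P2wins n) {w x z1 y0 y1 r t : Fin N} (hwx : w ≠ x)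
    (hr : r ∈ ({w, x} : Finset (Fin N))ᶜ) (ht : t ∈ ({w, x} : Finset (Fin N))ᶜ) (hrt : r ≠ t)
    (hy0 : y0 ∈ ({w, x} : Finset (Fin N))ᶜ) (hy1 : y1 ∈ ({w, x} : Finset (Fin N))ᶜ)
    (hz1 : z1 = w ∨ z1 = x) (hne : s(w, y0) ≠ s(z1, y1)) (F A : Finset (Sym2 (Fin N)))
    (hA : ∀ e, e ∈ A ↔ e = s(w, y0) ∨ e = s(z1, y1))
    (hF : ∀ f ∈ F, f ∈ Ed N ∧ f ≠ s(w, x) ∧ f ≠ s(r, t) ∧ f ∉ A) : win1 (W2g (N := N)) F A := by
  set K := ({w, x} : Finset (Fin N))ᶜ with hK
  have hKc : K.card = n := by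
    rw [hK, card_compl, Fintype.card_fin, card_pair hwx]
    omega
  have hmK : ∀ y, y ∈ K ↔ y ≠ w ∧ y ≠ x := by intro y; rw [hK]; simp
  have hwK : w ∉ K := fun h => ((hmK w).1 h).1 rfl
  have hxK : x ∉ K := fun h => ((hmK x).1 h).2 rfl
  have hz1K : z1 ∉ K := by rcases hz1 with rfl | rfl <;> assumption
  have nodiag : ∀ z y, z ∉ K → y ∈ K → s(z, y) ∉ ek K ∧ ¬ (s(z, y)).IsDiag := by
    intro z y hz hy
    refine ⟨fun h => hz (mem_ek.1 h).2.1, ?_⟩
    rw [Sym2.mk_isDiag_iff]
    rintro rfl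
    exact hz hy
  have hA1 : ∀ e ∈ A, e ∉ ek K ∧ ¬ e.IsDiag := by
    intro e he
    rcases (hA e).1 he with rfl | rfl
    · exact nodiag w y0 hwK hy0
    · exact nodiag z1 y1 hz1K hy1
  -- membership in stars
  have eqs : ∀ z z' y y', z ∉ K → z' ∉ K → y ∈ K → y' ∈ K → s(z, y) = s(z', y') → z = z' ∧ y = y' := by
    intro z z' y y' h1 h2 h3 h4 h
    rcases Sym2.eq_iff.1 h with h | ⟨h5, h6⟩
    · exact h
    · exact absurd (h5 ▸ h4) h1
  have hstar : ∀ z y, z ∉ K → y ∈ K → ∀ Y ⊆ K, y ∉ Y → s(z, y) ∉ star w Y ∪ star x Y := by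
    intro z y hz hy Y hYK hyY h
    rcases mem_union.1 h with h | h
    · obtain ⟨v, hv, h⟩ := mem_star.1 h
      exact hyY ((eqs _ _ _ _ hwK hz (hYK hv) hy h).2 ▸ hv)
    · obtain ⟨v, hv, h⟩ := mem_star.1 h
      exact hyY ((eqs _ _ _ _ hxK hz (hYK hv) hy h).2 ▸ hv)
  have hV : win1 (V2 w x) F A := by
    by_cases hyy : y0 = y1
    · -- both edges at the same vertex
      subst hyy
      have hz1x : z1 = x := by
        rcases hz1 with h | h
        · rw [h] at hne
          exact absurd rfl hne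
        · exact h
      set Y := K.erase y0 with hYd
      have hYK : Y ⊆ K := erase_subset _ _
      have hy0Y : y0 ∉ Y := notMem_erase _ _
      have h1 := kpairs hn hwx hKc hr ht hrt Y hYK A hA1 (by
        rw [disjoint_left]
        intro e he
        rcases (hA e).1 he with rfl | rfl
        · exact hstar w y0 hwK hy0 Y hYK hy0Y
        · exact hstar z1 y0 hz1K hy0 Y hYK hy0Y)
      have h2 : win1 (V2 w x) ((ek K).erase s(r, t) ∪ (star w Y ∪ star x Y)) A := by
        refine win1_imp ?_ h1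
        rintro X ⟨k1, k2⟩
        refine ⟨k1, y0, fun y hy hy' => k2 y ?_⟩
        rw [hYd, mem_erase]
        exact ⟨hy', hy⟩
      refine win1_subset (anti_V2 w x) ?_ h2
      intro f hf
      induction f using Sym2.ind with
      | _ p q =>
      obtain ⟨g1, g2, g3, g4⟩ := hF _ hf
      rw [mem_Ed] at g1
      rw [hA, not_or] at g4
      have auxw : ∀ q, w ≠ q → s(w, q) ≠ s(w, x) → s(w, q) ≠ s(w, y0) → s(w, q) ∈ star w Y := by
        intro q k1 k2 k3
        refine mem_star.2 ⟨q, ?_, rfl⟩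
        rw [hYd, mem_erase, hmK]
        exact ⟨fun h => k3 (by rw [h]), k1.symm, fun h => k2 (by rw [h])⟩
      have auxx : ∀ q, x ≠ q → s(x, q) ≠ s(w, x) → s(x, q) ≠ s(z1, y0) → s(x, q) ∈ star x Y := by
        intro q k1 k2 k3
        refine mem_star.2 ⟨q, ?_, rfl⟩
        rw [hYd, mem_erase, hmK]
        refine ⟨fun h => k3 (by rw [h, hz1x]), fun h => k2 ?_, k1.symm⟩
        rw [h]
        exact Sym2.eq_swap
      rw [mem_union, mem_union]
      by_cases hpw : p = w
      · right; left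
        rw [hpw] at g1 g2 g4 ⊢
        exact auxw q g1 g2 g4.1
      · by_cases hqw : q = w
        · right; left
          have hsw : s(p, q) = s(w, p) := by rw [hqw]; exact Sym2.eq_swap
          rw [hsw] at g2 g4 ⊢
          exact auxw p (fun h => hpw h.symm) g2 g4.1
        · by_cases hpx : p = x
          · right; right
            rw [hpx] at g1 g2 g4 ⊢
            exact auxx q g1 g2 g4.2
          · by_cases hqx : q = x
            · right; right
              have hsw : s(p, q) = s(x, p) := by rw [hqx]; exact Sym2.eq_swap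
              rw [hsw] at g2 g4 ⊢
              exact auxx p (fun h => hpx h.symm) g2 g4.2
            · left
              rw [mem_erase]
              exact ⟨g3, mem_ek.2 ⟨g1, (hmK p).2 ⟨hpw, hpx⟩, (hmK q).2 ⟨hqw, hqx⟩⟩⟩
    · obtain ⟨z2, hz2, hz12⟩ : ∃ z2, (z2 = w ∨ z2 = x) ∧ ((z1 = w ∧ z2 = x) ∨ (z1 = x ∧ z2 = w)) := by
        rcases hz1 with h | h
        · exact ⟨x, Or.inr rfl, Or.inl ⟨h, rfl⟩⟩
        · exact ⟨w, Or.inl rfl, Or.inr ⟨h, rfl⟩⟩
      have hz2K : z2 ∉ K := by rcases hz2 with rfl | rfl <;> assumption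
      have hz21 : z2 ≠ z1 := by
        rcases hz12 with ⟨h, h'⟩ | ⟨h, h'⟩
        · rw [h, h']; exact hwx.symm
        · rw [h, h']; exact hwx
      set Y := (K.erase y0).erase y1 with hYd
      have hYK : Y ⊆ K := (erase_subset _ _).trans (erase_subset _ _)
      have hy0Y : y0 ∉ Y := fun h => notMem_erase _ _ (mem_of_mem_erase h)
      have hy1Y : y1 ∉ Y := notMem_erase _ _
      have h1 := kpairs hn hwx hKc hr ht hrt Y hYK A hA1 (by
        rw [disjoint_left]
        intro e he
        rcases (hA e).1 he with rfl | rfl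
        · exact hstar w y0 hwK hy0 Y hYK hy0Y
        · exact hstar z1 y1 hz1K hy1 Y hYK hy1Y)
      have h2 := win1_two (e := s(x, y0)) (f := s(z2, y1)) (A := A)
        (fun h => hyy (eqs _ _ _ _ hxK hz2K hy0 hy1 h).2)
        (by
          rw [hA, not_or]
          exact ⟨fun h => hwx (eqs _ _ _ _ hxK hwK hy0 hy0 h).1.symm,
            fun h => hyy (eqs _ _ _ _ hxK hz1K hy0 hy1 h).2⟩)
        (by
          rw [hA, not_or]
          exact ⟨fun h => hyy (eqs _ _ _ _ hz2K hwK hy1 hy0 h).2.symm,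
            fun h => hz21 (eqs _ _ _ _ hz2K hz1K hy1 hy1 h).1⟩)
      have hG : ∀ e ∈ ({s(x, y0), s(z2, y1)} : Finset (Sym2 (Fin N))),
          (e ∉ ek K ∧ ¬ e.IsDiag) ∧ e ∉ star w Y ∪ star x Y := by
        intro e he
        rw [mem_insert, mem_singleton] at he
        rcases he with rfl | rfl
        · exact ⟨nodiag x y0 hxK hy0, hstar x y0 hxK hy0 Y hYK hy0Y⟩
        · exact ⟨nodiag z2 y1 hz2K hy1, hstar z2 y1 hz2K hy1 Y hYK hy1Y⟩
      have hG2 : ∀ e ∈ (ek K).erase s(r, t) ∪ (star w Y ∪ star x Y),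
          e ∉ ({s(x, y0), s(z2, y1)} : Finset (Sym2 (Fin N))) := by
        intro e he h
        rcases mem_union.1 he with h' | h'
        · exact (hG e h).1.1 (mem_of_mem_erase h')
        · exact (hG e h).2 h'
      have total := win1_sum (anti_and (anti_WK K)
          (fun X Z hXZ (h : ∀ y ∈ Y, ¬ (s(w, y) ∈ Z ∧ s(x, y) ∈ Z)) y hy h' => h y hy ⟨hXZ h'.1, hXZ h'.2⟩))
        (anti_nboth _ _) (disjoint_left.2 hG2)
        (fun e he X h => ⟨WK_insert (hG e he).1.1 (hG e he).1.2 X h.1, fun y hy h' => h.2 y hy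
          ⟨(mem_insert.1 h'.1).resolve_left (fun h5 => (hG e he).2
              (mem_union_left _ (mem_star.2 ⟨y, hy, h5⟩))),
            (mem_insert.1 h'.2).resolve_left (fun h5 => (hG e he).2
              (mem_union_right _ (mem_star.2 ⟨y, hy, h5⟩)))⟩⟩)
        (fun e he X h h' => by
          have h4 := hG2 e he
          rw [mem_insert, mem_singleton, not_or] at h4
          apply h
          exact ⟨(mem_insert.1 h'.1).resolve_left (fun h5 => h4.1 h5.symm),
            (mem_insert.1 h'.2).resolve_left (fun h5 => h4.2 h5.symm)⟩)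
        h1 h2
      have h3 : win1 (V2 w x) ((ek K).erase s(r, t) ∪ (star w Y ∪ star x Y) ∪
          {s(x, y0), s(z2, y1)}) A := by
        refine win1_imp ?_ total
        rintro X ⟨⟨k1, k2⟩, k3⟩
        refine ⟨k1, if s(x, y0) ∈ X then y0 else y1, fun y hy hy' => ?_⟩
        by_cases hyY : y ∈ Y
        · exact k2 y hyY
        · rw [hYd, mem_erase, mem_erase] at hyY
          by_cases hX0 : s(x, y0) ∈ X
          · rw [if_pos hX0] at hy'
            have hyy1 : y = y1 := by
              by_contra h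
              exact hyY ⟨h, hy', hy⟩
            rintro ⟨k4, k5⟩
            apply k3
            refine ⟨hX0, ?_⟩
            rw [← hyy1]
            rcases hz2 with h | h
            · rw [h]; exact k4
            · rw [h]; exact k5
          · rw [if_neg hX0] at hy'
            have hyy0 : y = y0 := by
              by_contra h
              exact hyY ⟨hy', h, hy⟩
            rintro ⟨_, k5⟩
            rw [hyy0] at k5
            exact hX0 k5
      refine win1_subset (anti_V2 w x) ?_ h3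
      intro f hf
      induction f using Sym2.ind with
      | _ p q =>
      obtain ⟨g1, g2, g3, g4⟩ := hF _ hf
      rw [mem_Ed] at g1
      rw [hA, not_or] at g4
      have aux : ∀ z q, (z = w ∨ z = x) → z ≠ q → s(z, q) ≠ s(w, x) → s(z, q) ≠ s(w, y0) →
          s(z, q) ≠ s(z1, y1) →
          s(z, q) ∈ (ek K).erase s(r, t) ∪ (star w Y ∪ star x Y) ∪ {s(x, y0), s(z2, y1)} := by
        intro z q hz k1 k2 k3 k4
        rw [mem_union, mem_union, mem_union, mem_insert, mem_singleton]
        have hqK : q ∈ K := by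
          rw [hmK]
          rcases hz with rfl | rfl
          · exact ⟨k1.symm, fun h => k2 (by rw [h])⟩
          · exact ⟨fun h => k2 (by rw [h]; exact Sym2.eq_swap), k1.symm⟩
        by_cases hq0 : q = y0
        · right; left
          rcases hz with rfl | rfl
          · exact absurd (by rw [hq0]) k3
          · rw [hq0]
        · by_cases hq1 : q = y1
          · right; right
            have hzz : z = z2 := by
              by_contra hcon
              apply k4
              rw [hq1]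
              have : z = z1 := by
                rcases hz12 with ⟨h, h'⟩ | ⟨h, h'⟩ <;> rcases hz with h'' | h''
                · rw [h, h'']
                · exact absurd (by rw [h', h'']) hcon
                · exact absurd (by rw [h', h'']) hcon
                · rw [h, h'']
              rw [this]
            rw [hzz, hq1]
          · left; right
            have hqY : q ∈ Y := by
              rw [hYd, mem_erase, mem_erase]
              exact ⟨hq1, hq0, hqK⟩
            rcases hz with rfl | rfl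
            · exact Or.inl (mem_star.2 ⟨q, hqY, rfl⟩)
            · exact Or.inr (mem_star.2 ⟨q, hqY, rfl⟩)
      by_cases hp : p = w ∨ p = x
      · exact aux p q hp g1 g2 g4.1 g4.2
      · by_cases hq : q = w ∨ q = x
        · have hsw : s(p, q) = s(q, p) := Sym2.eq_swap
          rw [hsw] at g2 g4 ⊢
          exact aux q p hq g1.symm g2 g4.1 g4.2
        · rw [not_or] at hp hq
          rw [mem_union, mem_union, mem_erase]
          exact Or.inl (Or.inl ⟨g3, mem_ek.2 ⟨g1, (hmK p).2 hp, (hmK q).2 hq⟩⟩)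
  refine win1_mono ?_ ?_ hV
  · rw [disjoint_right]
    intro f hf
    exact (hF f hf).2.2.2
  · intro X _ hX _ h
    refine ⟨w, x, hwx, ?_, h⟩
    intro h'
    rcases mem_union.1 (hX h') with h' | h'
    · rcases (hA _).1 h' with h' | h'
      · rw [Sym2.congr_right] at h'
        exact hxK (h' ▸ hy0)
      · rcases Sym2.eq_iff.1 h' with ⟨_, h5⟩ | ⟨h5, _⟩
        · exact hxK (h5 ▸ hy1)
        · exact hwK (h5 ▸ hy1)
    · exact (hF _ h').2.1 rfl

end Pool.Agent.H343S
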