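import Pool.Agent.H343S.Top2

set_option autoImplicit false

namespace Pool.Agent.H343S

open Finset

lemma fin2 {n : ℕ} (hn2 : 2 ≤ n) {X : Finset (Sym2 (Fin (n + 2)))} (hX : X ⊆ Ed (n + 2))
    (h : W2g X) : Out (n + 2) X := by
  obtain ⟨w, x, hwx, hwxX, hK, t, ht⟩ := h
  have hKc : (({w, x} : Finset (Fin (n + 2)))ᶜ).card = n := by
    rw [card_compl, Fintype.card_fin, card_pair hwx]
    omega
  set K := ({w, x} : Finset (Fin (n + 2)))ᶜ with hKd
  have split : ∀ u, nb X univ u = nb X K u + (ii X u w + ii X u x) := by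
    intro u
    rw [nb_compl X K u, hKd, compl_compl]
    congr 1
    rw [nb_sum, sum_pair hwx]
  have hc2 : ∀ u, ii X u w + ii X u x ≤ 2 := by
    intro u
    have := ii_le X u w
    have := ii_le X u x
    omega
  have hc1 : ∀ u ∈ K, u ≠ t → ii X u w + ii X u x ≤ 1 := by
    intro u hu hut
    have := ii_two (ht u hu hut)
    rw [ii_comm X w u, ii_comm X x u] at this
    exact this
  have hdeg : nb X univ w + nb X univ x ≤ n + 1 := by
    rw [split w, split x, ii_self hX w, ii_self hX x, ii_zero hwxX, ii_comm X x w, ii_zero hwxX]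
    have h1 : nb X K w + nb X K x ≤ n + 1 := by
      rw [nb_sum, nb_sum, ← sum_add_distrib]
      calc ∑ y ∈ K, (ii X w y + ii X x y) ≤ ∑ y ∈ K, (1 + if y = t then 1 else 0) := by
            apply sum_le_sum
            intro y hy
            rw [ii_comm X w y, ii_comm X x y]
            by_cases hyt : y = t
            · rw [if_pos hyt]
              exact hc2 y
            · rw [if_neg hyt]
              exact hc1 y hy hyt
        _ = n + ∑ y ∈ K, (if y = t then 1 else 0) := by rw [sum_add_distrib]; simp [hKc]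
        _ ≤ n + 1 := by
            rw [sum_ite_eq']
            split_ifs <;> omega
    omega
  obtain ⟨u0, hu0, hu⟩ := hK
  rw [hKc] at hu
  apply out_of hX
  intro z
  by_cases hzK : z ∈ K
  · by_cases hzt : z = t ∧ u0 = t
    · obtain ⟨u', hu', hne⟩ : ∃ u' ∈ K, u' ≠ t := by
        obtain ⟨p, hp, q, hq, hpq⟩ := one_lt_card.1 (show 1 < K.card by omega)
        by_cases hpt : p = t
        · exact ⟨q, hq, fun h => hpq (by rw [hpt, h])⟩
        · exact ⟨p, hp, hpt⟩
      refine ⟨u', ?_⟩
      rw [split z, split u']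
      have h1 := hu u' hu'
      have h2 := hc1 u' hu' hne
      have h3 := hc2 z
      rw [hzt.2, ← hzt.1] at h1
      omega
    · refine ⟨u0, ?_⟩
      rw [split z, split u0]
      have h1 := hu z hzK
      have h2 := hc2 z
      have h3 := hc2 u0
      rw [not_and_or] at hzt
      rcases hzt with h | h
      · have := hc1 z hzK h
        omega
      · have := hc1 u0 hu0 h
        omega
  · rw [hKd, mem_compl, not_not] at hzK
    simp only [mem_insert, mem_singleton] at hzK
    rcases hzK with rfl | rfl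
    · exact ⟨x, by omega⟩
    · exact ⟨w, by omega⟩

lemma exists_fresh {N : ℕ} (S : Finset (Fin N)) (h : S.card < N) : ∃ z, z ∉ S := by
  by_contra hc
  push Not at hc
  have h1 : (univ : Finset (Fin N)) ⊆ S := fun x _ => hc x
  have h2 := card_le_card h1
  rw [card_univ, Fintype.card_fin] at h2
  omega

lemma game2 {n N : ℕ} (hN : N = n + 2) (hn : ¬ P2wins n) (hn3 : 3 ≤ n) :
    win1 (W2g (N := N)) (Ed N) ∅ := by
  have hne : (Ed N).Nonempty := by
    subst hN
    refine ⟨s(⟨0, by omega⟩, ⟨1, by omega⟩), ?_⟩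
    rw [mem_Ed]
    intro h
    have := congrArg Fin.val h
    simp at this
  rw [win1_iff _ _ hne]
  intro e hE
  induction e using Sym2.ind with
  | _ a b =>
  have hab : a ≠ b := mem_Ed.1 hE
  obtain ⟨c, hc⟩ := exists_fresh ({a, b} : Finset (Fin N)) (by rw [card_pair hab]; omega)
  simp only [mem_insert, mem_singleton, not_or] at hc
  have hac : a ≠ c := fun h => hc.1 h.symm
  have hbc : b ≠ c := fun h => hc.2 h.symm
  have hf : s(a, c) ∈ (Ed N).erase s(a, b) := by
    rw [mem_erase, mem_Ed]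
    refine ⟨?_, hac⟩
    rw [Ne, Sym2.congr_right]
    exact hbc.symm
  rw [win2_iff _ _ ⟨_, hf⟩]
  refine ⟨_, hf, ?_⟩
  have hins : insert s(a, b) (∅ : Finset (Sym2 (Fin N))) = {s(a, b)} := rfl
  rw [hins]
  have hne2 : (((Ed N).erase s(a, b)).erase s(a, c)).Nonempty := by
    refine ⟨s(b, c), ?_⟩
    rw [mem_erase, mem_erase, mem_Ed]
    refine ⟨?_, ?_, hbc⟩
    · rw [Ne, Sym2.congr_left]
      exact hab.symm
    · intro h
      rcases Sym2.eq_iff.1 h with ⟨h', _⟩ | ⟨_, h'⟩
      · exact hab h'.symm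
      · exact hac h'.symm
  rw [win1_iff _ _ hne2]
  intro e he
  -- case A: the edge meets {a, c}
  have caseA : ∀ z q, (z = a ∨ z = c) → q ≠ a → q ≠ c → s(z, q) ≠ s(a, b) →
      win2 (W2g (N := N)) ((((Ed N).erase s(a, b)).erase s(a, c)).erase s(z, q))
        (insert s(z, q) {s(a, b)}) := by
    intro z q hz hqa hqc hne1
    have hKc : (({a, c} : Finset (Fin N))ᶜ).card = n := by
      rw [card_compl, Fintype.card_fin, card_pair hac]
      omega
    obtain ⟨r, hr, t, ht, hrt⟩ := one_lt_card.1 (show 1 < (({a, c} : Finset (Fin N))ᶜ).card by omega)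
    have hr' := hr
    have ht' := ht
    simp only [mem_compl, mem_insert, mem_singleton, not_or] at hr' ht'
    have hmem : s(r, t) ∈ (((Ed N).erase s(a, b)).erase s(a, c)).erase s(z, q) := by
      rw [mem_erase, mem_erase, mem_erase, mem_Ed]
      refine ⟨?_, ?_, ?_, hrt⟩
      · intro h
        rcases Sym2.eq_iff.1 h with ⟨h', _⟩ | ⟨_, h'⟩ <;> rcases hz with hz | hz <;> rw [hz] at h'
        · exact hr'.1 h'
        · exact hr'.2 h'
        · exact ht'.1 h'
        · exact ht'.2 h'
      · intro h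
        rcases Sym2.eq_iff.1 h with ⟨h', _⟩ | ⟨_, h'⟩
        · exact hr'.1 h'
        · exact ht'.1 h'
      · intro h
        rcases Sym2.eq_iff.1 h with ⟨h', _⟩ | ⟨_, h'⟩
        · exact hr'.1 h'
        · exact ht'.1 h'
    rw [win2_iff _ _ ⟨_, hmem⟩]
    refine ⟨_, hmem, ?_⟩
    apply state2 hN hn (w := a) (x := c) (z1 := z) (y0 := b) (y1 := q) (r := r) (t := t) hac hr ht hrt
      (by simp [hab.symm, hbc]) (by simp [hqa, hqc]) hz hne1.symm
    · intro e
      rw [mem_insert, mem_singleton]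
      tauto
    · intro f hf
      rw [mem_erase, mem_erase, mem_erase, mem_erase] at hf
      refine ⟨hf.2.2.2.2, hf.2.2.1, hf.1, ?_⟩
      rw [mem_insert, mem_singleton, not_or]
      exact ⟨hf.2.1, hf.2.2.2.1⟩
  -- case B: the edge does not meet {a, c}
  have caseB : ∀ x z q, x ≠ a → x ≠ c → x ≠ b → (z = b ∨ z = x) → q ≠ b → q ≠ x → q ≠ a → q ≠ c →
      win2 (W2g (N := N)) ((((Ed N).erase s(a, b)).erase s(a, c)).erase s(z, q))
        (insert s(z, q) {s(a, b)}) := by
    intro x z q hxa hxc hxb hz hqb hqx hqa hqc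
    have hmem : s(b, x) ∈ (((Ed N).erase s(a, b)).erase s(a, c)).erase s(z, q) := by
      rw [mem_erase, mem_erase, mem_erase, mem_Ed]
      refine ⟨?_, ?_, ?_, hxb.symm⟩
      · intro h
        rcases Sym2.eq_iff.1 h with ⟨_, h'⟩ | ⟨h', _⟩
        · exact hqx h'.symm
        · exact hqb h'.symm
      · intro h
        rcases Sym2.eq_iff.1 h with ⟨h', _⟩ | ⟨h', _⟩
        · exact hab h'.symm
        · exact hbc h'
      · intro h
        rcases Sym2.eq_iff.1 h with ⟨h', _⟩ | ⟨_, h'⟩
        · exact hab h'.symm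
        · exact hxa h'
    rw [win2_iff _ _ ⟨_, hmem⟩]
    refine ⟨_, hmem, ?_⟩
    apply state2 hN hn (w := b) (x := x) (z1 := z) (y0 := a) (y1 := q) (r := a) (t := c) hxb.symm
      (by simp [hab, hxa.symm]) (by simp [hbc.symm, hxc.symm]) hac (by simp [hab, hxa.symm])
      (by simp [hqb, hqx]) hz
    · intro h
      rcases Sym2.eq_iff.1 h with ⟨_, h'⟩ | ⟨h', _⟩
      · exact hqa h'.symm
      · exact hqb h'.symm
    · intro e
      rw [mem_insert, mem_singleton, Sym2.eq_swap (a := b) (b := a)]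
      tauto
    · intro f hf
      rw [mem_erase, mem_erase, mem_erase, mem_erase] at hf
      refine ⟨hf.2.2.2.2, hf.1, hf.2.2.1, ?_⟩
      rw [mem_insert, mem_singleton, not_or]
      exact ⟨hf.2.1, hf.2.2.2.1⟩
  induction e using Sym2.ind with
  | _ p q =>
  rw [mem_erase, mem_erase, mem_Ed] at he
  obtain ⟨g1, g2, g3⟩ := he
  have mainA : ∀ p q, (p = a ∨ p = c) → p ≠ q → s(p, q) ≠ s(a, c) → s(p, q) ≠ s(a, b) →
      win2 (W2g (N := N)) ((((Ed N).erase s(a, b)).erase s(a, c)).erase s(p, q))
        (insert s(p, q) {s(a, b)}) := by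
    intro p q hp k1 k2 k3
    refine caseA p q hp ?_ ?_ k3
    · rintro rfl
      rcases hp with rfl | rfl
      · exact k1 rfl
      · exact k2 Sym2.eq_swap
    · rintro rfl
      rcases hp with rfl | rfl
      · exact k2 rfl
      · exact k1 rfl
  by_cases hp : p = a ∨ p = c
  · exact mainA p q hp g3 g1 g2
  · by_cases hq : q = a ∨ q = c
    · rw [Sym2.eq_swap (a := p) (b := q)] at g1 g2 ⊢
      exact mainA q p hq g3.symm g1 g2
    · rw [not_or] at hp hq
      by_cases hpb : p = b
      · -- fresh vertex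
        obtain ⟨z, hz⟩ := exists_fresh ({a, b, c, q} : Finset (Fin N)) (by
          refine lt_of_le_of_lt (card_le_four) ?_
          omega)
        simp only [mem_insert, mem_singleton, not_or] at hz
        exact caseB z p q hz.1 hz.2.2.1 hz.2.1 (Or.inl hpb) (fun h => g3 (by rw [hpb, h]))
          (fun h => hz.2.2.2 h.symm) hq.1 hq.2
      · by_cases hqb : q = b
        · obtain ⟨z, hz⟩ := exists_fresh ({a, b, c, p} : Finset (Fin N)) (by
            refine lt_of_le_of_lt (card_le_four) ?_
            omega)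
          simp only [mem_insert, mem_singleton, not_or] at hz
          rw [Sym2.eq_swap (a := p) (b := q)]
          exact caseB z q p hz.1 hz.2.2.1 hz.2.1 (Or.inl hqb) hpb
            (fun h => hz.2.2.2 h.symm) hp.1 hp.2
        · exact caseB p p q hp.1 hp.2 hpb (Or.inr rfl) hqb (fun h => g3 h.symm) hq.1 hq.2

/-- If `Star(n)` is a Player 1 win and `n ≥ 3`, then `Star(n + 2)` is a Player 2 win. -/
theorem offset2 {n : ℕ} (hn : ¬ P2wins n) (h3 : 3 ≤ n) : P2wins (n + 2) := by
  refine win1_mono (disjoint_empty_left _) ?_ (game2 rfl hn h3)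
  intro X _ hX _ h
  rw [empty_union] at hX
  exact fin2 (by omega) hX h

end Pool.Agent.H343S
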