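import Pool.Agent.H343S.Rest

set_option autoImplicit false

namespace Pool.Agent.H343S

open Finset

/-- goal of Player 2 -/
def W3 {N : ℕ} (n : ℕ) (X : Finset (Sym2 (Fin N))) : Prop :=
  ∃ a b c : Fin N, a ≠ b ∧ a ≠ c ∧ b ≠ c ∧ s(a, c) ∉ X ∧
    (∀ y ∈ ({a, b, c} : Finset (Fin N))ᶜ, ¬ (s(a, y) ∈ X ∧ s(c, y) ∈ X)) ∧ Rest n a b c X

lemma rest_insens {N n : ℕ} {a b c : Fin N} (hab : a ≠ b) (hac : a ≠ c) (hbc : b ≠ c) :
    ∀ e ∈ star a ({a, b, c} : Finset (Fin N))ᶜ ∪ star c ({a, b, c} : Finset (Fin N))ᶜ, ∀ X,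
      Rest n a b c X → Rest n a b c (insert e X) := by
  rintro e he X ⟨v, hva, hvc, h3, h4⟩
  have hK : ∀ y, y ∈ ({a, c, v} : Finset (Fin N))ᶜ ↔ y ≠ a ∧ y ≠ c ∧ y ≠ v := by
    intro y; simp
  obtain ⟨y, hy, x, hx, hxe⟩ : ∃ y ∈ ({a, b, c} : Finset (Fin N))ᶜ, ∃ x, (x = a ∨ x = c) ∧ s(x, y) = e := by
    rcases mem_union.1 he with h | h
    · obtain ⟨y, hy, h⟩ := mem_star.1 h
      exact ⟨y, hy, a, Or.inl rfl, h⟩
    · obtain ⟨y, hy, h⟩ := mem_star.1 h
      exact ⟨y, hy, c, Or.inr rfl, h⟩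
  simp only [mem_compl, mem_insert, mem_singleton, not_or] at hy
  have hxK : x ∉ ({a, c, v} : Finset (Fin N))ᶜ := by
    rw [hK]
    rintro ⟨h1, h2, _⟩
    rcases hx with rfl | rfl
    · exact h1 rfl
    · exact h2 rfl
  have hxb : x ≠ b := by
    rcases hx with rfl | rfl
    · exact hab
    · exact hbc.symm
  have hxv : x ≠ v := by
    rcases hx with rfl | rfl
    · exact hva.symm
    · exact hvc.symm
  have hxy : x ≠ y := by
    rcases hx with rfl | rfl
    · exact fun h => hy.1 h.symm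
    · exact fun h => hy.2.2 h.symm
  subst hxe
  have e1 : s(x, y) ∉ ek ({a, c, v} : Finset (Fin N))ᶜ := fun h => hxK (mem_ek.1 h).2.1
  have e2 : ¬ (s(x, y)).IsDiag := by rw [Sym2.mk_isDiag_iff]; exact hxy
  have e3 : ∀ u, u ≠ x → s(x, y) ∉ star u ({a, c, v} : Finset (Fin N))ᶜ := by
    intro u hu h
    obtain ⟨w, hw, hwe⟩ := mem_star.1 h
    rcases Sym2.eq_iff.1 hwe with ⟨h', _⟩ | ⟨_, h'⟩
    · exact hu h'
    · exact hxK (h' ▸ hw)
  have e4 : s(b, c) ≠ s(x, y) := by
    intro h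
    rcases Sym2.eq_iff.1 h with ⟨h', _⟩ | ⟨h', _⟩
    · exact hxb h'.symm
    · exact hy.2.1 h'.symm
  refine ⟨v, hva, hvc, WK_insert e1 e2 X h3, ?_⟩
  rcases h4 with ⟨h5, h6⟩ | ⟨h5, h6, h7⟩
  · left
    refine ⟨h5, ?_⟩
    rw [nb_ins (e3 b hxb.symm)]
    have : ii (insert s(x, y) X) b c = ii X b c := by
      unfold ii
      by_cases h : s(b, c) ∈ X
      · rw [if_pos h, if_pos (mem_insert_of_mem h)]
      · rw [if_neg h, if_neg]
        rw [mem_insert, not_or]
        exact ⟨e4, h⟩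
    rw [this]
    exact h6
  · right
    refine ⟨h5, ?_, ?_⟩
    · rintro ⟨h8, h9⟩
      apply h6
      refine ⟨(mem_insert.1 h8).resolve_left e4, (mem_insert.1 h9).resolve_left ?_⟩
      intro h
      rcases Sym2.eq_iff.1 h with ⟨h', _⟩ | ⟨_, h'⟩
      · exact hxb h'.symm
      · exact hxv h'.symm
    · rw [nb_ins (e3 v hxv.symm)]
      exact h7

lemma game3 {n N : ℕ} (hN : N = n + 3) (hn : ¬ P2wins n) (he : Even n) (hn2 : 2 ≤ n) :
    win1 (W3 (N := N) n) (Ed N) ∅ := by
  have hne : (Ed N).Nonempty := by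
    subst hN
    refine ⟨s(⟨0, by omega⟩, ⟨1, by omega⟩), ?_⟩
    rw [mem_Ed]
    intro h
    have := congrArg Fin.val h
    simp at this
  rw [win1_iff _ _ hne]
  intro e hE
  induction e using Sym2.ind with
  | _ a b =>
  have hab : a ≠ b := mem_Ed.1 hE
  obtain ⟨c, hc⟩ : ∃ c, c ∉ ({a, b} : Finset (Fin N)) := by
    by_contra h
    push Not at h
    have h1 : (univ : Finset (Fin N)) ⊆ {a, b} := fun x _ => h x
    have h2 := card_le_card h1
    rw [card_univ, Fintype.card_fin, card_pair hab] at h2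
    omega
  simp only [mem_insert, mem_singleton, not_or] at hc
  have hac : a ≠ c := fun h => hc.1 h.symm
  have hbc : b ≠ c := fun h => hc.2 h.symm
  have hf : s(a, c) ∈ (Ed N).erase s(a, b) := by
    rw [mem_erase, mem_Ed]
    refine ⟨?_, hac⟩
    rw [Ne, Sym2.congr_right]
    exact hbc.symm
  rw [win2_iff _ _ ⟨_, hf⟩]
  refine ⟨_, hf, ?_⟩
  have hins : insert s(a, b) (∅ : Finset (Sym2 (Fin N))) = {s(a, b)} := rfl
  rw [hins]
  have hY : ∀ y, y ∈ ({a, b, c} : Finset (Fin N))ᶜ ↔ y ≠ a ∧ y ≠ b ∧ y ≠ c := by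
    intro y; simp
  have hd0 : Disjoint ({s(a, b)} : Finset (Sym2 (Fin N)))
      (star a ({a, b, c} : Finset (Fin N))ᶜ ∪ star c ({a, b, c} : Finset (Fin N))ᶜ) := by
    rw [disjoint_singleton_left, mem_union, mem_star, mem_star, not_or]
    constructor
    · rintro ⟨y, hy, h⟩
      rw [Sym2.congr_right] at h
      exact ((hY y).1 hy).2.1 h
    · rintro ⟨y, hy, h⟩
      rcases Sym2.eq_iff.1 h with ⟨h', _⟩ | ⟨h', _⟩
      · exact hac h'.symm
      · exact hbc h'.symm
  have h1 := win1_pairs hac ({s(a, b)} : Finset (Sym2 (Fin N))) ({a, b, c} : Finset (Fin N))ᶜ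
    (by simp) (by simp) hd0
  have h2 := rest_game hN hn he hn2 hab hac hbc
  have hR : ∀ e ∈ insert s(b, c) (ek ({a, c} : Finset (Fin N))ᶜ), ∀ y ∈ ({a, b, c} : Finset (Fin N))ᶜ,
      s(a, y) ≠ e ∧ s(c, y) ≠ e := by
    intro e he y hy
    rw [hY] at hy
    rcases mem_insert.1 he with rfl | he
    · constructor
      · intro h
        rcases Sym2.eq_iff.1 h with ⟨h', _⟩ | ⟨h', _⟩
        · exact hab h'
        · exact hac h'
      · intro h
        rcases Sym2.eq_iff.1 h with ⟨h', _⟩ | ⟨_, h'⟩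
        · exact hbc h'.symm
        · exact hy.2.1 h'
    · constructor
      · rintro rfl
        have := (mem_ek.1 he).2.1
        simp at this
      · rintro rfl
        have := (mem_ek.1 he).2.1
        simp at this
  have total := win1_sum (W1 := fun X => ∀ y ∈ ({a, b, c} : Finset (Fin N))ᶜ, ¬ (s(a, y) ∈ X ∧ s(c, y) ∈ X))
    (W2 := Rest n a b c) (fun X Z hXZ h y hy h' => h y hy ⟨hXZ h'.1, hXZ h'.2⟩) (anti_Rest n a b c)
    (by
      rw [disjoint_left]
      intro e he he'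
      rcases mem_union.1 he with h | h
      · obtain ⟨y, hy, h⟩ := mem_star.1 h
        exact (hR e he' y hy).1 h
      · obtain ⟨y, hy, h⟩ := mem_star.1 h
        exact (hR e he' y hy).2 h)
    (by
      intro e he X h y hy h'
      apply h y hy
      exact ⟨(mem_insert.1 h'.1).resolve_left (hR e he y hy).1,
        (mem_insert.1 h'.2).resolve_left (hR e he y hy).2⟩)
    (rest_insens hab hac hbc) h1 h2
  have hsub : ((Ed N).erase s(a, b)).erase s(a, c) ⊆
      star a ({a, b, c} : Finset (Fin N))ᶜ ∪ star c ({a, b, c} : Finset (Fin N))ᶜ ∪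
        insert s(b, c) (ek ({a, c} : Finset (Fin N))ᶜ) := by
    intro f hf
    induction f using Sym2.ind with
    | _ p q =>
    rw [mem_erase, mem_erase, mem_Ed] at hf
    obtain ⟨g1, g2, g3⟩ := hf
    have aux : ∀ q, a ≠ q → s(a, q) ≠ s(a, c) → s(a, q) ≠ s(a, b) →
        s(a, q) ∈ star a ({a, b, c} : Finset (Fin N))ᶜ := by
      intro q k1 k2 k3
      refine mem_star.2 ⟨q, ?_, rfl⟩
      rw [hY]
      exact ⟨k1.symm, fun h => k3 (by rw [h]), fun h => k2 (by rw [h])⟩
    have aux2 : ∀ q, c ≠ q → a ≠ q → s(c, q) ∈ star c ({a, b, c} : Finset (Fin N))ᶜ ∪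
        insert s(b, c) (ek ({a, c} : Finset (Fin N))ᶜ) := by
      intro q k1 k2
      rw [mem_union]
      by_cases hqb : q = b
      · right
        rw [mem_insert, hqb]
        exact Or.inl Sym2.eq_swap
      · left
        refine mem_star.2 ⟨q, ?_, rfl⟩
        rw [hY]
        exact ⟨k2.symm, hqb, k1.symm⟩
    rw [union_assoc, mem_union]
    by_cases hpa : p = a
    · left
      rw [hpa] at g1 g2 g3 ⊢
      exact aux q g3 g1 g2
    · by_cases hqa : q = a
      · left
        have hsw : s(p, q) = s(a, p) := by rw [hqa]; exact Sym2.eq_swap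
        rw [hsw] at g1 g2 ⊢
        exact aux p (fun h => hpa h.symm) g1 g2
      · right
        by_cases hpc : p = c
        · rw [hpc] at g3 ⊢
          exact aux2 q g3 (fun h => hqa h.symm)
        · by_cases hqc : q = c
          · have hsw : s(p, q) = s(c, p) := by rw [hqc]; exact Sym2.eq_swap
            rw [hsw]
            exact aux2 p (fun h => hpc h.symm) (fun h => hpa h.symm)
          · rw [mem_union, mem_insert, mem_ek]
            right; right
            refine ⟨g3, ?_, ?_⟩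
            · simp [hpa, hpc]
            · simp [hqa, hqc]
  have h3 := win1_subset (anti_and (fun X Z hXZ h y hy h' => h y hy ⟨hXZ h'.1, hXZ h'.2⟩)
    (anti_Rest n a b c)) hsub total
  refine win1_mono ?_ ?_ h3
  · rw [disjoint_singleton_left, mem_erase, mem_erase]
    rintro ⟨_, h, _⟩
    exact h rfl
  · rintro X _ hX _ ⟨k1, k2⟩
    refine ⟨a, b, c, hab, hac, hbc, ?_, k1, k2⟩
    intro h
    have := hX h
    rw [mem_union, mem_singleton, mem_erase] at this
    rcases this with h' | h'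
    · rw [Sym2.congr_right] at h'
      exact hbc h'.symm
    · exact h'.1 rfl

/-- If `Star(n)` is a Player 1 win and `n ≥ 11` is even, then `Star(n + 3)` is a Player 2 win. -/
theorem offset3 {n : ℕ} (hn : ¬ P2wins n) (he : Even n) (h11 : 11 ≤ n) : P2wins (n + 3) := by
  refine win1_mono (disjoint_empty_left _) ?_ (game3 rfl hn he (by omega))
  rintro X _ hX hc ⟨a, b, c, hab, hac, hbc, h1, h2, v, hva, hvc, h3, h4⟩
  rw [empty_union] at hX
  have hE := card_Ed (n + 3)
  have e1 : n + 3 - 1 = n + 2 := by omega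
  rw [e1] at hE
  rw [card_empty] at hc
  exact fin3 he h11 hX (by omega) hab hac hbc hva hvc h1 h2 h3 h4

end Pool.Agent.H343S
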